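import Pool.Agent.Helper791_RSA.Defs

set_option autoImplicit false

namespace Pool.Agent.Helper791.RSA

open Filter Topology MeasureTheory ProbabilityTheory



theorem A_map_zero (P : PMF ℕ) : (P.map (· + 1)) 0 = 0 := by
  rw [PMF.map_apply, ENNReal.tsum_eq_zero]
  intro a
  rw [if_neg (by omega)]

theorem A_map_succ (P : PMF ℕ) (k : ℕ) : (P.map (· + 1)) (k + 1) = P k := by
  rw [PMF.map_apply, tsum_eq_single k]
  · rw [if_pos rfl]
  · intro b hb
    rw [if_neg (by omega)]

theorem A_succ (r t : ℕ) (U : Finset ℕ) (h : (free r U).Nonempty) (k : ℕ) :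
    placements r (t + 1) U k = ∑ j ∈ free r U, ((free r U).card : ENNReal)⁻¹ *
      ((placements r t (U \ Finset.Ico j (j + r))).map (· + 1)) k := by
  rw [placements, dif_pos h, PMF.bind_apply, tsum_eq_sum (s := free r U)]
  · apply Finset.sum_congr rfl
    intro j hj
    rw [PMF.uniformOfFinset_apply, if_pos hj]
  · intro j hj
    rw [PMF.uniformOfFinset_apply, if_neg hj, zero_mul]

theorem A_empty (r t : ℕ) (U : Finset ℕ) (h : ¬ (free r U).Nonempty) :
    placements r (t + 1) U = PMF.pure 0 := by
  rw [placements, dif_neg h]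

theorem A_supp (r t : ℕ) : ∀ (U : Finset ℕ) (k : ℕ), t < k → placements r t U k = 0 := by
  induction t with
  | zero =>
    intro U k hk
    rw [placements, PMF.pure_apply, if_neg (by omega)]
  | succ t ih =>
    intro U k hk
    by_cases h : (free r U).Nonempty
    · rw [A_succ r t U h]
      apply Finset.sum_eq_zero
      intro j _
      obtain ⟨k', rfl⟩ : ∃ k', k = k' + 1 := ⟨k - 1, by omega⟩
      rw [A_map_succ, ih _ _ (by omega), mul_zero]
    · rw [A_empty r t U h, PMF.pure_apply, if_neg (by omega)]

theorem A_mass (r t : ℕ) (U : Finset ℕ) :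
    ∑ k ∈ Finset.range (t + 1), (placements r t U k).toReal = 1 := by
  rw [← ENNReal.toReal_sum (fun k _ => (placements r t U).apply_ne_top k)]
  have h := (placements r t U).tsum_coe
  rw [tsum_eq_sum (s := Finset.range (t + 1))] at h
  · rw [h]; simp
  · intro k hk
    apply A_supp
    simpa using hk

theorem A_step (r t : ℕ) (U : Finset ℕ) (h : (free r U).Nonempty) (f : ℕ → ℝ) :
    ∑ k ∈ Finset.range (t + 2), (placements r (t + 1) U k).toReal * f k =
      (∑ j ∈ free r U, ∑ k ∈ Finset.range (t + 1),
        (placements r t (U \ Finset.Ico j (j + r)) k).toReal * f (k + 1)) /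
          ((free r U).card : ℝ) := by
  have hc : (0 : ℝ) < ((free r U).card : ℝ) := by exact_mod_cast h.card_pos
  have h0 : ∀ k, (placements r (t + 1) U k).toReal = (∑ j ∈ free r U,
      (((placements r t (U \ Finset.Ico j (j + r))).map (· + 1)) k).toReal) /
        ((free r U).card : ℝ) := by
    intro k
    rw [A_succ r t U h, ENNReal.toReal_sum, Finset.sum_div]
    · apply Finset.sum_congr rfl
      intro j _
      rw [ENNReal.toReal_mul, ENNReal.toReal_inv, ENNReal.toReal_natCast]
      field_simp
    · intro j _
      apply ENNReal.mul_ne_top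
      · rw [ENNReal.inv_ne_top]
        exact_mod_cast h.card_pos.ne'
      · exact PMF.apply_ne_top _ _
  rw [Finset.sum_range_succ', Finset.sum_div, h0 0]
  have h1 : ∑ j ∈ free r U,
      (((placements r t (U \ Finset.Ico j (j + r))).map (· + 1)) 0).toReal = 0 := by
    apply Finset.sum_eq_zero
    intro j _
    rw [A_map_zero]; simp
  rw [h1, zero_div, zero_mul, add_zero]
  rw [← Finset.sum_div, Finset.sum_comm, Finset.sum_div]
  apply Finset.sum_congr rfl
  intro k _
  rw [h0, div_mul_eq_mul_div, Finset.sum_mul]
  congr 1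
  apply Finset.sum_congr rfl
  intro j _
  rw [A_map_succ]

/-! END -/

/-- TARGET -/
theorem supp (r t : ℕ) (U : Finset ℕ) (k : ℕ) (hk : t < k) : placements r t U k = 0 := by
  exact A_supp r t U k hk

/-- TARGET -/
theorem mean_eq (r t : ℕ) (U : Finset ℕ) :
    ∑ k ∈ Finset.range (t + 1), (placements r t U k).toReal * (k : ℝ) = m1 r t U := by
  induction t generalizing U with
  | zero => simp [m1]
  | succ t ih =>
    rw [m1]
    by_cases h : (free r U).Nonempty
    · rw [if_pos h, A_step r t U h]
      congr 1
      apply Finset.sum_congr rfl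
      intro j _
      push_cast
      simp only [mul_add, mul_one, Finset.sum_add_distrib]
      rw [ih, A_mass]
      ring
    · rw [if_neg h, A_empty r t U h]
      apply Finset.sum_eq_zero
      intro k _
      rw [PMF.pure_apply]
      split_ifs with hk
      · rw [hk]; simp
      · simp

/-- TARGET -/
theorem second_eq (r t : ℕ) (U : Finset ℕ) :
    ∑ k ∈ Finset.range (t + 1), (placements r t U k).toReal * (k : ℝ) ^ 2 = m2 r t U := by
  induction t generalizing U with
  | zero => simp [m2]
  | succ t ih =>
    rw [m2]
    by_cases h : (free r U).Nonempty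
    · rw [if_pos h, A_step r t U h (fun k => (k : ℝ) ^ 2)]
      congr 1
      apply Finset.sum_congr rfl
      intro j _
      have h1 : ∀ k : ℕ, (placements r t (U \ Finset.Ico j (j + r)) k).toReal * ((k + 1 : ℕ) : ℝ) ^ 2 =
          (placements r t (U \ Finset.Ico j (j + r)) k).toReal * (k : ℝ) ^ 2 +
            2 * ((placements r t (U \ Finset.Ico j (j + r)) k).toReal * (k : ℝ)) +
            (placements r t (U \ Finset.Ico j (j + r)) k).toReal := by
        intro k
        push_cast
        ring
      rw [Finset.sum_congr rfl fun k _ => h1 k, Finset.sum_add_distrib, Finset.sum_add_distrib,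
        ← Finset.mul_sum, ih, mean_eq, A_mass]
      ring
    · rw [if_neg h, A_empty r t U h]
      apply Finset.sum_eq_zero
      intro k _
      rw [PMF.pure_apply]
      split_ifs with hk
      · rw [hk]; simp
      · simp

end Pool.Agent.Helper791.RSA
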