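import Pool.Agent.Helper791_RSA.Defs

set_option autoImplicit false

namespace Pool.Agent.Helper791.RSA

open Filter Topology MeasureTheory ProbabilityTheory



theorem B_meas (P : PMF ℕ) (t : ℕ) (hP : ∀ k, t < k → P k = 0) :
    P.toMeasure = ∑ k ∈ Finset.range (t + 1), P k • Measure.dirac k := by
  refine Measure.ext fun s hs => ?_
  rw [PMF.toMeasure_apply _ hs, Measure.finsetSum_apply]
  rw [tsum_eq_sum (s := Finset.range (t + 1))]
  · refine Finset.sum_congr rfl fun k _ => ?_
    rw [Measure.smul_apply, Measure.dirac_apply' _ hs, smul_eq_mul]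
    by_cases hk : k ∈ s
    · simp [hk]
    · simp [hk]
  · intro k hk
    have : P k = 0 := hP k (by simpa [Nat.lt_succ_iff] using hk)
    by_cases hk : k ∈ s
    · simp [hk, this]
    · simp [hk]

theorem B_integrable (P : PMF ℕ) (t : ℕ) (hP : ∀ k, t < k → P k = 0) (f : ℕ → ℝ) :
    Integrable f P.toMeasure := by
  rw [B_meas P t hP, integrable_finsetSum_measure]
  intro k _
  exact (integrable_dirac (by simp)).smul_measure (P.apply_ne_top k)

theorem B_integral (P : PMF ℕ) (t : ℕ) (hP : ∀ k, t < k → P k = 0) (f : ℕ → ℝ) :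
    ∫ k, f k ∂P.toMeasure = ∑ k ∈ Finset.range (t + 1), (P k).toReal * f k := by
  rw [B_meas P t hP, integral_finsetSum_measure]
  · refine Finset.sum_congr rfl fun k _ => ?_
    rw [integral_smul_measure, integral_dirac, smul_eq_mul]
  · intro k _
    exact (integrable_dirac (by simp)).smul_measure (P.apply_ne_top k)

/-! END -/

/-- TARGET -/
theorem var_finite (P : PMF ℕ) (t : ℕ) (hP : ∀ k, t < k → P k = 0) :
    Var[fun k : ℕ => (k : ℝ); P.toMeasure] =
      ∑ k ∈ Finset.range (t + 1), (P k).toReal * (k : ℝ) ^ 2 -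
        (∑ k ∈ Finset.range (t + 1), (P k).toReal * (k : ℝ)) ^ 2 := by
  have hm : MemLp (fun k : ℕ => (k : ℝ)) 2 P.toMeasure := by
    rw [memLp_two_iff_integrable_sq (by exact (measurable_of_countable _).aestronglyMeasurable)]
    exact B_integrable P t hP _
  rw [variance_eq_sub hm]
  have h1 := B_integral P t hP (fun k => (k : ℝ) ^ 2)
  have h2 := B_integral P t hP (fun k => (k : ℝ))
  have h3 : P.toMeasure[(fun k : ℕ => (k : ℝ)) ^ 2] = ∫ k : ℕ, (k : ℝ) ^ 2 ∂P.toMeasure := rfl
  rw [h3, h1, h2]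

end Pool.Agent.Helper791.RSA
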