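import Pool.Agent.Helper791_RSA.Defs

set_option autoImplicit false

namespace Pool.Agent.Helper791.RSA

open Filter Topology MeasureTheory ProbabilityTheory



theorem C_card (r : ℕ) (hr : 1 ≤ r) (U : Finset ℕ) (j : ℕ) (hj : j ∈ free r U) :
    (U \ Finset.Ico j (j + r)).card < U.card := by
  rw [free, Finset.mem_filter] at hj
  obtain ⟨hjU, hsub⟩ := hj
  apply Finset.card_lt_card
  rw [Finset.ssubset_iff_of_subset Finset.sdiff_subset]
  refine ⟨j, hjU, ?_⟩
  intro h
  rw [Finset.mem_sdiff, Finset.mem_Ico] at h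
  exact h.2 ⟨le_refl j, by omega⟩

theorem C_empty (r : ℕ) (t : ℕ) : m1 r t ∅ = 0 ∧ m2 r t ∅ = 0 := by
  have hf : ¬ (free r (∅ : Finset ℕ)).Nonempty := by
    rintro ⟨j, hj⟩
    rw [free, Finset.mem_filter] at hj
    exact absurd hj.1 (Finset.notMem_empty j)
  cases t with
  | zero => exact ⟨rfl, rfl⟩
  | succ t =>
    constructor
    · rw [m1, if_neg hf]
    · rw [m2, if_neg hf]

theorem C_key (r : ℕ) (hr : 1 ≤ r) : ∀ (t t' : ℕ) (U : Finset ℕ), U.card ≤ t → U.card ≤ t' →
    m1 r t U = m1 r t' U ∧ m2 r t U = m2 r t' U := by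
  intro t
  induction t with
  | zero =>
    intro t' U h1 h2
    have hU : U = ∅ := Finset.card_eq_zero.1 (Nat.le_zero.1 h1)
    subst hU
    rw [(C_empty r 0).1, (C_empty r 0).2, (C_empty r t').1, (C_empty r t').2]
    exact ⟨rfl, rfl⟩
  | succ t ih =>
    intro t' U h1 h2
    cases t' with
    | zero =>
      have hU : U = ∅ := Finset.card_eq_zero.1 (Nat.le_zero.1 h2)
      subst hU
      rw [(C_empty r 0).1, (C_empty r 0).2, (C_empty r (t + 1)).1, (C_empty r (t + 1)).2]
      exact ⟨rfl, rfl⟩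
    | succ t' =>
      have hstep : ∀ j ∈ free r U,
          m1 r t (U \ Finset.Ico j (j + r)) = m1 r t' (U \ Finset.Ico j (j + r)) ∧
          m2 r t (U \ Finset.Ico j (j + r)) = m2 r t' (U \ Finset.Ico j (j + r)) := by
        intro j hj
        have := C_card r hr U j hj
        exact ih t' _ (by omega) (by omega)
      constructor
      · rw [m1, m1]
        by_cases hf : (free r U).Nonempty
        · rw [if_pos hf, if_pos hf]
          congr 1
          exact Finset.sum_congr rfl fun j hj => by rw [(hstep j hj).1]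
        · rw [if_neg hf, if_neg hf]
      · rw [m2, m2]
        by_cases hf : (free r U).Nonempty
        · rw [if_pos hf, if_pos hf]
          congr 1
          exact Finset.sum_congr rfl fun j hj => by rw [(hstep j hj).1, (hstep j hj).2]
        · rw [if_neg hf, if_neg hf]

theorem C_zero (r : ℕ) (t : ℕ) (U : Finset ℕ) (hf : ¬ (free r U).Nonempty) :
    m1 r t U = 0 ∧ m2 r t U = 0 := by
  cases t with
  | zero => exact ⟨rfl, rfl⟩
  | succ t =>
    constructor
    · rw [m1, if_neg hf]
    · rw [m2, if_neg hf]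

/-! END -/

/-- TARGET -/
theorem fuel (r : ℕ) (hr : 1 ≤ r) (t : ℕ) (U : Finset ℕ) (ht : U.card ≤ t) :
    m1 r t U = m1 r U.card U ∧ m2 r t U = m2 r U.card U := by
  exact C_key r hr t U.card U ht le_rfl

/-- TARGET -/
theorem recs (r : ℕ) (hr : 1 ≤ r) :
    (∀ U : Finset ℕ, ¬ (free r U).Nonempty → m1 r U.card U = 0 ∧ m2 r U.card U = 0) ∧
    (∀ U : Finset ℕ, m1 r U.card U * ((free r U).card : ℝ) =
      ∑ j ∈ free r U, (1 + m1 r (U \ Finset.Ico j (j + r)).card (U \ Finset.Ico j (j + r)))) ∧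
    (∀ U : Finset ℕ, m2 r U.card U * ((free r U).card : ℝ) =
      ∑ j ∈ free r U, (1 + 2 * m1 r (U \ Finset.Ico j (j + r)).card (U \ Finset.Ico j (j + r)) +
        m2 r (U \ Finset.Ico j (j + r)).card (U \ Finset.Ico j (j + r)))) := by
  refine ⟨fun U hf => C_zero r _ U hf, fun U => ?_, fun U => ?_⟩
  · by_cases hf : (free r U).Nonempty
    · rw [(C_key r hr U.card (U.card + 1) U le_rfl (Nat.le_succ _)).1, m1, if_pos hf,
        div_mul_cancel₀ _ (by exact_mod_cast (Finset.card_pos.2 hf).ne')]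
      refine Finset.sum_congr rfl fun j hj => ?_
      have := C_card r hr U j hj
      rw [(C_key r hr U.card _ (U \ Finset.Ico j (j + r)) this.le le_rfl).1]
    · rw [(C_zero r _ U hf).1, Finset.not_nonempty_iff_eq_empty.1 hf]
      simp
  · by_cases hf : (free r U).Nonempty
    · rw [(C_key r hr U.card (U.card + 1) U le_rfl (Nat.le_succ _)).2, m2, if_pos hf,
        div_mul_cancel₀ _ (by exact_mod_cast (Finset.card_pos.2 hf).ne')]
      refine Finset.sum_congr rfl fun j hj => ?_
      have := C_card r hr U j hj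
      rw [(C_key r hr U.card _ (U \ Finset.Ico j (j + r)) this.le le_rfl).1,
        (C_key r hr U.card _ (U \ Finset.Ico j (j + r)) this.le le_rfl).2]
    · rw [(C_zero r _ U hf).2, Finset.not_nonempty_iff_eq_empty.1 hf]
      simp

end Pool.Agent.Helper791.RSA
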