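import Pool.Agent.Helper791_RSA.Defs

set_option autoImplicit false

namespace Pool.Agent.Helper791.RSA

open Filter Topology MeasureTheory ProbabilityTheory



theorem D_mem_free {r : ℕ} {U : Finset ℕ} {j : ℕ} :
    j ∈ free r U ↔ j ∈ U ∧ Finset.Ico j (j + r) ⊆ U := by
  unfold free
  rw [Finset.mem_filter]

/-- the free blocks of a union of two separated sets -/
theorem D_free_union (r : ℕ) (A B : Finset ℕ) (p : ℕ) (hA : ∀ x ∈ A, x < p)
    (hB : ∀ x ∈ B, p < x) : free r (A ∪ B) = free r A ∪ free r B := by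
  ext j
  rw [Finset.mem_union, D_mem_free, D_mem_free, D_mem_free]
  constructor
  · rintro ⟨h1, h2⟩
    rcases Finset.mem_union.1 h1 with h | h
    · left
      refine ⟨h, fun x hx => ?_⟩
      rcases Finset.mem_union.1 (h2 hx) with h3 | h3
      · exact h3
      · exfalso
        rw [Finset.mem_Ico] at hx
        have hj := hA j h
        have hx2 := hB x h3
        have hp : p ∈ A ∪ B := h2 (Finset.mem_Ico.2 ⟨by omega, by omega⟩)
        rcases Finset.mem_union.1 hp with h4 | h4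
        · exact absurd (hA p h4) (lt_irrefl _)
        · exact absurd (hB p h4) (lt_irrefl _)
    · right
      refine ⟨h, fun x hx => ?_⟩
      rcases Finset.mem_union.1 (h2 hx) with h3 | h3
      · exfalso
        rw [Finset.mem_Ico] at hx
        have hj := hB j h
        have hx2 := hA x h3
        omega
      · exact h3
  · rintro (⟨h1, h2⟩ | ⟨h1, h2⟩)
    · exact ⟨Finset.mem_union_left _ h1, h2.trans Finset.subset_union_left⟩
    · exact ⟨Finset.mem_union_right _ h1, h2.trans Finset.subset_union_right⟩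

theorem D_disj (r : ℕ) (A B : Finset ℕ) (p : ℕ) (hA : ∀ x ∈ A, x < p)
    (hB : ∀ x ∈ B, p < x) : Disjoint (free r A) (free r B) := by
  rw [Finset.disjoint_left]
  intro j h1 h2
  have h3 := hA j (D_mem_free.1 h1).1
  have h4 := hB j (D_mem_free.1 h2).1
  omega

theorem D_sdiff_left (r : ℕ) (A B : Finset ℕ) (p : ℕ) (hA : ∀ x ∈ A, x < p)
    (hB : ∀ x ∈ B, p < x) (j : ℕ) (hj : j ∈ free r A) :
    (A ∪ B) \ Finset.Ico j (j + r) = (A \ Finset.Ico j (j + r)) ∪ B := by
  rw [Finset.union_sdiff_distrib]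
  congr 1
  rw [Finset.sdiff_eq_self_iff_disjoint, Finset.disjoint_left]
  intro x hx hx2
  have h1 := hA x ((D_mem_free.1 hj).2 hx2)
  have h2 := hB x hx
  omega

theorem D_sdiff_right (r : ℕ) (A B : Finset ℕ) (p : ℕ) (hA : ∀ x ∈ A, x < p)
    (hB : ∀ x ∈ B, p < x) (j : ℕ) (hj : j ∈ free r B) :
    (A ∪ B) \ Finset.Ico j (j + r) = A ∪ (B \ Finset.Ico j (j + r)) := by
  rw [Finset.union_sdiff_distrib]
  congr 1
  rw [Finset.sdiff_eq_self_iff_disjoint, Finset.disjoint_left]
  intro x hx hx2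
  have h1 := hB x ((D_mem_free.1 hj).2 hx2)
  have h2 := hA x hx
  omega

theorem D_card_lt (r : ℕ) (hr : 1 ≤ r) (A : Finset ℕ) (j : ℕ) (hj : j ∈ free r A) :
    (A \ Finset.Ico j (j + r)).card < A.card := by
  apply Finset.card_lt_card
  rw [Finset.ssubset_iff_of_subset Finset.sdiff_subset]
  refine ⟨j, (D_mem_free.1 hj).1, ?_⟩
  rw [Finset.mem_sdiff, Finset.mem_Ico]
  rintro ⟨-, h⟩
  exact h ⟨le_refl _, by omega⟩

theorem D_main (r : ℕ) (hr : 1 ≤ r) (f₁ f₂ : Finset ℕ → ℝ)
    (h0 : ∀ U, ¬ (free r U).Nonempty → f₁ U = 0 ∧ f₂ U = 0)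
    (h1 : ∀ U, f₁ U * ((free r U).card : ℝ) = ∑ j ∈ free r U, (1 + f₁ (U \ Finset.Ico j (j + r))))
    (h2 : ∀ U, f₂ U * ((free r U).card : ℝ) =
      ∑ j ∈ free r U, (1 + 2 * f₁ (U \ Finset.Ico j (j + r)) + f₂ (U \ Finset.Ico j (j + r))))
    (p : ℕ) : ∀ (N : ℕ) (A B : Finset ℕ), A.card + B.card ≤ N → (∀ x ∈ A, x < p) →
      (∀ x ∈ B, p < x) →
      f₁ (A ∪ B) = f₁ A + f₁ B ∧ f₂ (A ∪ B) = f₂ A + 2 * f₁ A * f₁ B + f₂ B := by
  intro N
  induction N with
  | zero =>
    intro A B hN _ _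
    have hA0 : A = ∅ := Finset.card_eq_zero.1 (by omega)
    have hB0 : B = ∅ := Finset.card_eq_zero.1 (by omega)
    subst hA0
    subst hB0
    have he : ¬ (free r (∅ : Finset ℕ)).Nonempty := by
      rintro ⟨j, hj⟩
      exact absurd (D_mem_free.1 hj).1 (Finset.notMem_empty j)
    obtain ⟨e1, e2⟩ := h0 ∅ he
    rw [Finset.empty_union, e1, e2]
    constructor <;> ring
  | succ N ih =>
    intro A B hN hA hB
    have hfu := D_free_union r A B p hA hB
    have hdis := D_disj r A B p hA hB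
    have ihA : ∀ j ∈ free r A, f₁ ((A ∪ B) \ Finset.Ico j (j + r)) =
        f₁ (A \ Finset.Ico j (j + r)) + f₁ B ∧ f₂ ((A ∪ B) \ Finset.Ico j (j + r)) =
        f₂ (A \ Finset.Ico j (j + r)) + 2 * f₁ (A \ Finset.Ico j (j + r)) * f₁ B + f₂ B := by
      intro j hj
      rw [D_sdiff_left r A B p hA hB j hj]
      have hc := D_card_lt r hr A j hj
      exact ih _ _ (by omega) (fun x hx => hA x (Finset.sdiff_subset hx)) hB
    have ihB : ∀ j ∈ free r B, f₁ ((A ∪ B) \ Finset.Ico j (j + r)) =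
        f₁ A + f₁ (B \ Finset.Ico j (j + r)) ∧ f₂ ((A ∪ B) \ Finset.Ico j (j + r)) =
        f₂ A + 2 * f₁ A * f₁ (B \ Finset.Ico j (j + r)) + f₂ (B \ Finset.Ico j (j + r)) := by
      intro j hj
      rw [D_sdiff_right r A B p hA hB j hj]
      have hc := D_card_lt r hr B j hj
      exact ih _ _ (by omega) hA (fun x hx => hB x (Finset.sdiff_subset hx))
    have hcard : ((free r (A ∪ B)).card : ℝ) = (free r A).card + (free r B).card := by
      rw [hfu, Finset.card_union_of_disjoint hdis]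
      push_cast
      ring
    by_cases hne : (free r (A ∪ B)).Nonempty
    · have hpos : (0 : ℝ) < (free r (A ∪ B)).card := by
        exact_mod_cast Finset.card_pos.2 hne
      have e1 : ∑ j ∈ free r A, (1 + f₁ ((A ∪ B) \ Finset.Ico j (j + r))) =
          f₁ A * (free r A).card + f₁ B * (free r A).card := by
        rw [h1 A, Finset.sum_congr rfl (fun j hj => by rw [(ihA j hj).1])]
        have : ∀ j ∈ free r A, 1 + (f₁ (A \ Finset.Ico j (j + r)) + f₁ B) =
            (1 + f₁ (A \ Finset.Ico j (j + r))) + f₁ B := fun j _ => by ring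
        rw [Finset.sum_congr rfl this, Finset.sum_add_distrib, Finset.sum_const, nsmul_eq_mul]
        ring
      have e2 : ∑ j ∈ free r B, (1 + f₁ ((A ∪ B) \ Finset.Ico j (j + r))) =
          f₁ B * (free r B).card + f₁ A * (free r B).card := by
        rw [h1 B, Finset.sum_congr rfl (fun j hj => by rw [(ihB j hj).1])]
        have : ∀ j ∈ free r B, 1 + (f₁ A + f₁ (B \ Finset.Ico j (j + r))) =
            (1 + f₁ (B \ Finset.Ico j (j + r))) + f₁ A := fun j _ => by ring
        rw [Finset.sum_congr rfl this, Finset.sum_add_distrib, Finset.sum_const, nsmul_eq_mul]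
        ring
      have e3 : ∑ j ∈ free r A, (1 + 2 * f₁ ((A ∪ B) \ Finset.Ico j (j + r)) +
          f₂ ((A ∪ B) \ Finset.Ico j (j + r))) =
          f₂ A * (free r A).card + 2 * f₁ B * (f₁ A * (free r A).card) +
            f₂ B * (free r A).card := by
        rw [h2 A, h1 A, Finset.sum_congr rfl (fun j hj => by rw [(ihA j hj).1, (ihA j hj).2])]
        have : ∀ j ∈ free r A, 1 + 2 * (f₁ (A \ Finset.Ico j (j + r)) + f₁ B) +
            (f₂ (A \ Finset.Ico j (j + r)) + 2 * f₁ (A \ Finset.Ico j (j + r)) * f₁ B + f₂ B) =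
            ((1 + 2 * f₁ (A \ Finset.Ico j (j + r)) + f₂ (A \ Finset.Ico j (j + r))) +
              2 * f₁ B * (1 + f₁ (A \ Finset.Ico j (j + r)))) + f₂ B := fun j _ => by ring
        rw [Finset.sum_congr rfl this, Finset.sum_add_distrib, Finset.sum_add_distrib,
          Finset.sum_const, nsmul_eq_mul, ← Finset.mul_sum]
        ring
      have e4 : ∑ j ∈ free r B, (1 + 2 * f₁ ((A ∪ B) \ Finset.Ico j (j + r)) +
          f₂ ((A ∪ B) \ Finset.Ico j (j + r))) =
          f₂ B * (free r B).card + 2 * f₁ A * (f₁ B * (free r B).card) +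
            f₂ A * (free r B).card := by
        rw [h2 B, h1 B, Finset.sum_congr rfl (fun j hj => by rw [(ihB j hj).1, (ihB j hj).2])]
        have : ∀ j ∈ free r B, 1 + 2 * (f₁ A + f₁ (B \ Finset.Ico j (j + r))) +
            (f₂ A + 2 * f₁ A * f₁ (B \ Finset.Ico j (j + r)) + f₂ (B \ Finset.Ico j (j + r))) =
            ((1 + 2 * f₁ (B \ Finset.Ico j (j + r)) + f₂ (B \ Finset.Ico j (j + r))) +
              2 * f₁ A * (1 + f₁ (B \ Finset.Ico j (j + r)))) + f₂ A := fun j _ => by ring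
        rw [Finset.sum_congr rfl this, Finset.sum_add_distrib, Finset.sum_add_distrib,
          Finset.sum_const, nsmul_eq_mul, ← Finset.mul_sum]
        ring
      have k1 := h1 (A ∪ B)
      have k2 := h2 (A ∪ B)
      rw [hfu, Finset.sum_union hdis, ← hfu, e1, e2] at k1
      rw [hfu, Finset.sum_union hdis, ← hfu, e3, e4] at k2
      constructor
      · have k3 : f₁ (A ∪ B) * ((free r (A ∪ B)).card : ℝ) =
            (f₁ A + f₁ B) * ((free r (A ∪ B)).card : ℝ) := by
          rw [k1, hcard]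
          ring
        exact mul_right_cancel₀ (ne_of_gt hpos) k3
      · have k3 : f₂ (A ∪ B) * ((free r (A ∪ B)).card : ℝ) =
            (f₂ A + 2 * f₁ A * f₁ B + f₂ B) * ((free r (A ∪ B)).card : ℝ) := by
          rw [k2, hcard]
          ring
        exact mul_right_cancel₀ (ne_of_gt hpos) k3
    · have hneA : ¬ (free r A).Nonempty := by
        intro h
        apply hne
        rw [hfu]
        exact h.mono Finset.subset_union_left
      have hneB : ¬ (free r B).Nonempty := by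
        intro h
        apply hne
        rw [hfu]
        exact h.mono Finset.subset_union_right
      obtain ⟨a1, a2⟩ := h0 _ hne
      obtain ⟨b1, b2⟩ := h0 _ hneA
      obtain ⟨c1, c2⟩ := h0 _ hneB
      rw [a1, a2, b1, b2, c1, c2]
      constructor <;> ring

/-! END -/

/-- TARGET -/
theorem separate (r : ℕ) (hr : 1 ≤ r) (f₁ f₂ : Finset ℕ → ℝ)
    (h0 : ∀ U, ¬ (free r U).Nonempty → f₁ U = 0 ∧ f₂ U = 0)
    (h1 : ∀ U, f₁ U * ((free r U).card : ℝ) = ∑ j ∈ free r U, (1 + f₁ (U \ Finset.Ico j (j + r))))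
    (h2 : ∀ U, f₂ U * ((free r U).card : ℝ) =
      ∑ j ∈ free r U, (1 + 2 * f₁ (U \ Finset.Ico j (j + r)) + f₂ (U \ Finset.Ico j (j + r))))
    (A B : Finset ℕ) (p : ℕ) (hA : ∀ x ∈ A, x < p) (hB : ∀ x ∈ B, p < x) :
    f₁ (A ∪ B) = f₁ A + f₁ B ∧ f₂ (A ∪ B) = f₂ A + 2 * f₁ A * f₁ B + f₂ B := by
  exact D_main r hr f₁ f₂ h0 h1 h2 p _ A B le_rfl hA hB

end Pool.Agent.Helper791.RSA
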