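import Pool.Agent.Helper791_RSA.Defs

set_option autoImplicit false

namespace Pool.Agent.Helper791.RSA

open Filter Topology MeasureTheory ProbabilityTheory



lemma E_mem_image (U : Finset ℕ) (c x : ℕ) : x ∈ U.image (· + c) ↔ c ≤ x ∧ x - c ∈ U := by
  simp only [Finset.mem_image]
  constructor
  · rintro ⟨a, ha, rfl⟩
    exact ⟨by omega, by simpa using ha⟩
  · rintro ⟨h1, h2⟩
    exact ⟨x - c, h2, by omega⟩

lemma E_free_image (r : ℕ) (U : Finset ℕ) (c : ℕ) :
    free r (U.image (· + c)) = (free r U).image (· + c) := by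
  ext j
  rw [E_mem_image]
  simp only [free, Finset.mem_filter]
  rw [E_mem_image]
  constructor
  · rintro ⟨⟨h1, h2⟩, h3⟩
    refine ⟨h1, h2, ?_⟩
    intro x hx
    have hx' := Finset.mem_Ico.mp hx
    have h4 : x + c ∈ U.image (· + c) := h3 (Finset.mem_Ico.mpr ⟨by omega, by omega⟩)
    rw [E_mem_image] at h4
    simpa using h4.2
  · rintro ⟨h1, h2, h3⟩
    refine ⟨⟨h1, h2⟩, ?_⟩
    intro x hx
    have hx' := Finset.mem_Ico.mp hx
    rw [E_mem_image]
    exact ⟨by omega, h3 (Finset.mem_Ico.mpr ⟨by omega, by omega⟩)⟩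

lemma E_sdiff_image (r : ℕ) (U : Finset ℕ) (c j : ℕ) :
    U.image (· + c) \ Finset.Ico (j + c) (j + c + r) = (U \ Finset.Ico j (j + r)).image (· + c) := by
  ext x
  rw [E_mem_image, Finset.mem_sdiff, Finset.mem_sdiff, E_mem_image, Finset.mem_Ico, Finset.mem_Ico]
  constructor
  · rintro ⟨⟨h1, h2⟩, h3⟩
    exact ⟨h1, h2, by omega⟩
  · rintro ⟨h1, h2, h3⟩
    exact ⟨⟨h1, h2⟩, by omega⟩

lemma E_card_lt (r : ℕ) (hr : 1 ≤ r) (U : Finset ℕ) (j : ℕ) (hj : j ∈ free r U) :
    (U \ Finset.Ico j (j + r)).card < U.card := by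
  have hjU : j ∈ U := (Finset.mem_filter.mp hj).1
  apply Finset.card_lt_card
  refine ⟨Finset.sdiff_subset, ?_⟩
  intro h
  have h1 := h hjU
  rw [Finset.mem_sdiff] at h1
  exact h1.2 (Finset.mem_Ico.mpr ⟨le_refl _, by omega⟩)

lemma E_inj (c : ℕ) : Function.Injective (fun x : ℕ => x + c) := fun a b h => by simpa using h


/-! END -/

/-- TARGET -/
theorem translate (r : ℕ) (hr : 1 ≤ r) (f₁ f₂ : Finset ℕ → ℝ)
    (h0 : ∀ U, ¬ (free r U).Nonempty → f₁ U = 0 ∧ f₂ U = 0)
    (h1 : ∀ U, f₁ U * ((free r U).card : ℝ) = ∑ j ∈ free r U, (1 + f₁ (U \ Finset.Ico j (j + r))))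
    (h2 : ∀ U, f₂ U * ((free r U).card : ℝ) =
      ∑ j ∈ free r U, (1 + 2 * f₁ (U \ Finset.Ico j (j + r)) + f₂ (U \ Finset.Ico j (j + r))))
    (U : Finset ℕ) (c : ℕ) :
    f₁ (U.image (· + c)) = f₁ U ∧ f₂ (U.image (· + c)) = f₂ U := by
  induction' hn : U.card using Nat.strong_induction_on with n ih generalizing U
  by_cases hne : (free r U).Nonempty
  · have hcard : ((free r U).card : ℝ) ≠ 0 := by
      have := Finset.card_pos.mpr hne
      positivity
    have hcard2 : ((free r (U.image (· + c))).card : ℝ) = ((free r U).card : ℝ) := by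
      rw [E_free_image, Finset.card_image_of_injective _ (E_inj c)]
    have key : ∀ j ∈ free r U,
        f₁ (U.image (· + c) \ Finset.Ico (j + c) (j + c + r)) = f₁ (U \ Finset.Ico j (j + r)) ∧
        f₂ (U.image (· + c) \ Finset.Ico (j + c) (j + c + r)) = f₂ (U \ Finset.Ico j (j + r)) := by
      intro j hj
      rw [E_sdiff_image]
      exact ih _ (hn ▸ E_card_lt r hr U j hj) _ rfl
    have e1 := h1 (U.image (· + c))
    have e2 := h2 (U.image (· + c))
    rw [hcard2, E_free_image, Finset.sum_image (fun a _ b _ h => E_inj c h)] at e1 e2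
    constructor
    · apply mul_right_cancel₀ hcard
      rw [e1, h1 U]
      apply Finset.sum_congr rfl
      intro j hj
      rw [(key j hj).1]
    · apply mul_right_cancel₀ hcard
      rw [e2, h2 U]
      apply Finset.sum_congr rfl
      intro j hj
      rw [(key j hj).1, (key j hj).2]
  · have hne2 : ¬ (free r (U.image (· + c))).Nonempty := by
      rw [E_free_image, Finset.image_nonempty]
      exact hne
    rw [(h0 _ hne).1, (h0 _ hne).2, (h0 _ hne2).1, (h0 _ hne2).2]
    exact ⟨rfl, rfl⟩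

end Pool.Agent.Helper791.RSA
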