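import Pool.Agent.Helper791_RSA.Defs
import Pool.Agent.Helper791_RSA.D
import Pool.Agent.Helper791_RSA.E

set_option autoImplicit false

namespace Pool.Agent.Helper791.RSA

open Filter Topology MeasureTheory ProbabilityTheory



theorem F_free_empty (r n : ℕ) (hn : n < r) : ¬ (free r (Finset.Icc 1 n)).Nonempty := by
  rintro ⟨j, hj⟩
  unfold free at hj
  rw [Finset.mem_filter, Finset.mem_Icc] at hj
  obtain ⟨⟨h1, h2⟩, h3⟩ := hj
  have h4 : j + r - 1 ∈ Finset.Ico j (j + r) := by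
    rw [Finset.mem_Ico]
    omega
  have h5 := h3 h4
  rw [Finset.mem_Icc] at h5
  omega

theorem F_free (r n : ℕ) (hr : 1 ≤ r) :
    free r (Finset.Icc 1 (n + r)) = (Finset.range (n + 1)).image (· + 1) := by
  ext j
  unfold free
  rw [Finset.mem_filter, Finset.mem_Icc, Finset.mem_image]
  constructor
  · rintro ⟨⟨h1, h2⟩, h3⟩
    have h4 : j + r - 1 ∈ Finset.Ico j (j + r) := by
      rw [Finset.mem_Ico]
      omega
    have h5 := h3 h4
    rw [Finset.mem_Icc] at h5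
    refine ⟨j - 1, ?_, ?_⟩
    · rw [Finset.mem_range]
      omega
    · omega
  · rintro ⟨i, hi, rfl⟩
    rw [Finset.mem_range] at hi
    refine ⟨⟨by omega, by omega⟩, ?_⟩
    intro x hx
    rw [Finset.mem_Ico] at hx
    rw [Finset.mem_Icc]
    omega

theorem F_card (r n : ℕ) (hr : 1 ≤ r) : ((free r (Finset.Icc 1 (n + r))).card : ℝ) = (n : ℝ) + 1 := by
  rw [F_free r n hr, Finset.card_image_of_injective _ (add_left_injective 1), Finset.card_range]
  push_cast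
  ring

theorem F_sum (r n : ℕ) (hr : 1 ≤ r) (g : ℕ → ℝ) :
    ∑ j ∈ free r (Finset.Icc 1 (n + r)), g j = ∑ i ∈ Finset.range (n + 1), g (i + 1) := by
  rw [F_free r n hr, Finset.sum_image (fun a _ b _ h => add_left_injective 1 h)]

theorem F_split (r n i : ℕ) (hr : 1 ≤ r) (hi : i < n + 1) :
    Finset.Icc 1 (n + r) \ Finset.Ico (i + 1) (i + 1 + r) =
      Finset.Icc 1 i ∪ (Finset.Icc 1 (n - i)).image (· + (i + r)) := by
  ext x
  rw [Finset.mem_sdiff, Finset.mem_union, Finset.mem_Icc, Finset.mem_Ico, Finset.mem_Icc,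
    Finset.mem_image]
  constructor
  · rintro ⟨⟨h1, h2⟩, h3⟩
    by_cases h4 : x ≤ i
    · exact Or.inl ⟨h1, h4⟩
    · right
      refine ⟨x - (i + r), ?_, ?_⟩
      · rw [Finset.mem_Icc]
        omega
      · omega
  · rintro (⟨h1, h2⟩ | ⟨y, hy, rfl⟩)
    · omega
    · rw [Finset.mem_Icc] at hy
      omega

theorem F_val (r : ℕ) (hr : 1 ≤ r) (f₁ f₂ : Finset ℕ → ℝ)
    (h0 : ∀ U, ¬ (free r U).Nonempty → f₁ U = 0 ∧ f₂ U = 0)
    (h1 : ∀ U, f₁ U * ((free r U).card : ℝ) = ∑ j ∈ free r U, (1 + f₁ (U \ Finset.Ico j (j + r))))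
    (h2 : ∀ U, f₂ U * ((free r U).card : ℝ) =
      ∑ j ∈ free r U, (1 + 2 * f₁ (U \ Finset.Ico j (j + r)) + f₂ (U \ Finset.Ico j (j + r))))
    (n i : ℕ) (hi : i < n + 1) :
    f₁ (Finset.Icc 1 (n + r) \ Finset.Ico (i + 1) (i + 1 + r)) =
      f₁ (Finset.Icc 1 i) + f₁ (Finset.Icc 1 (n - i)) ∧
    f₂ (Finset.Icc 1 (n + r) \ Finset.Ico (i + 1) (i + 1 + r)) =
      f₂ (Finset.Icc 1 i) + 2 * f₁ (Finset.Icc 1 i) * f₁ (Finset.Icc 1 (n - i)) +
        f₂ (Finset.Icc 1 (n - i)) := by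
  rw [F_split r n i hr hi]
  have hs := separate r hr f₁ f₂ h0 h1 h2 (Finset.Icc 1 i)
    ((Finset.Icc 1 (n - i)).image (· + (i + r))) (i + 1)
    (fun x hx => by
      rw [Finset.mem_Icc] at hx
      omega)
    (fun x hx => by
      rw [Finset.mem_image] at hx
      obtain ⟨y, hy, rfl⟩ := hx
      rw [Finset.mem_Icc] at hy
      omega)
  have ht := translate r hr f₁ f₂ h0 h1 h2 (Finset.Icc 1 (n - i)) (i + r)
  rw [ht.1, ht.2] at hs
  exact hs

/-! END -/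

/-- TARGET -/
theorem interval (r : ℕ) (hr : 1 ≤ r) (f₁ f₂ : Finset ℕ → ℝ)
    (h0 : ∀ U, ¬ (free r U).Nonempty → f₁ U = 0 ∧ f₂ U = 0)
    (h1 : ∀ U, f₁ U * ((free r U).card : ℝ) = ∑ j ∈ free r U, (1 + f₁ (U \ Finset.Ico j (j + r))))
    (h2 : ∀ U, f₂ U * ((free r U).card : ℝ) =
      ∑ j ∈ free r U, (1 + 2 * f₁ (U \ Finset.Ico j (j + r)) + f₂ (U \ Finset.Ico j (j + r)))) :
    (∀ n, n < r → f₁ (Finset.Icc 1 n) = 0 ∧ f₂ (Finset.Icc 1 n) = 0) ∧
    (∀ n : ℕ, ((n : ℝ) + 1) * f₁ (Finset.Icc 1 (n + r)) =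
      ((n : ℝ) + 1) + 2 * ∑ j ∈ Finset.range (n + 1), f₁ (Finset.Icc 1 j)) ∧
    (∀ n : ℕ, ((n : ℝ) + 1) * f₂ (Finset.Icc 1 (n + r)) =
      ((n : ℝ) + 1) + 4 * ∑ j ∈ Finset.range (n + 1), f₁ (Finset.Icc 1 j) +
        2 * ∑ j ∈ Finset.range (n + 1), f₁ (Finset.Icc 1 j) * f₁ (Finset.Icc 1 (n - j)) +
        2 * ∑ j ∈ Finset.range (n + 1), f₂ (Finset.Icc 1 j)) := by
  refine ⟨fun n hn => h0 _ (F_free_empty r n hn), ?_, ?_⟩
  · intro n
    have e := h1 (Finset.Icc 1 (n + r))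
    rw [F_card r n hr, F_sum r n hr] at e
    have e2 : ∑ i ∈ Finset.range (n + 1),
        (1 + f₁ (Finset.Icc 1 (n + r) \ Finset.Ico (i + 1) (i + 1 + r))) =
        ∑ i ∈ Finset.range (n + 1), (1 + (f₁ (Finset.Icc 1 i) + f₁ (Finset.Icc 1 (n - i)))) := by
      refine Finset.sum_congr rfl fun i hi => ?_
      rw [(F_val r hr f₁ f₂ h0 h1 h2 n i (Finset.mem_range.1 hi)).1]
    have e3 : ∑ i ∈ Finset.range (n + 1), f₁ (Finset.Icc 1 (n - i)) =
        ∑ i ∈ Finset.range (n + 1), f₁ (Finset.Icc 1 i) := by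
      have := Finset.sum_range_reflect (fun j => f₁ (Finset.Icc 1 j)) (n + 1)
      simpa using this
    rw [e2, Finset.sum_add_distrib, Finset.sum_add_distrib, e3] at e
    simp only [Finset.sum_const, Finset.card_range, nsmul_eq_mul, mul_one] at e
    push_cast at e
    linarith
  · intro n
    have e := h2 (Finset.Icc 1 (n + r))
    rw [F_card r n hr, F_sum r n hr] at e
    have e2 : ∑ i ∈ Finset.range (n + 1),
        (1 + 2 * f₁ (Finset.Icc 1 (n + r) \ Finset.Ico (i + 1) (i + 1 + r)) +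
          f₂ (Finset.Icc 1 (n + r) \ Finset.Ico (i + 1) (i + 1 + r))) =
        ∑ i ∈ Finset.range (n + 1), (1 + (2 * f₁ (Finset.Icc 1 i) + (2 * f₁ (Finset.Icc 1 (n - i)) +
          (f₂ (Finset.Icc 1 i) + (2 * (f₁ (Finset.Icc 1 i) * f₁ (Finset.Icc 1 (n - i))) +
            f₂ (Finset.Icc 1 (n - i))))))) := by
      refine Finset.sum_congr rfl fun i hi => ?_
      rw [(F_val r hr f₁ f₂ h0 h1 h2 n i (Finset.mem_range.1 hi)).1,
        (F_val r hr f₁ f₂ h0 h1 h2 n i (Finset.mem_range.1 hi)).2]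
      ring
    have e3 : ∑ i ∈ Finset.range (n + 1), f₁ (Finset.Icc 1 (n - i)) =
        ∑ i ∈ Finset.range (n + 1), f₁ (Finset.Icc 1 i) := by
      have := Finset.sum_range_reflect (fun j => f₁ (Finset.Icc 1 j)) (n + 1)
      simpa using this
    have e4 : ∑ i ∈ Finset.range (n + 1), f₂ (Finset.Icc 1 (n - i)) =
        ∑ i ∈ Finset.range (n + 1), f₂ (Finset.Icc 1 i) := by
      have := Finset.sum_range_reflect (fun j => f₂ (Finset.Icc 1 j)) (n + 1)
      simpa using this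
    rw [e2, Finset.sum_add_distrib, Finset.sum_add_distrib, Finset.sum_add_distrib,
      Finset.sum_add_distrib, Finset.sum_add_distrib, ← Finset.mul_sum, ← Finset.mul_sum,
      ← Finset.mul_sum, e3, e4] at e
    simp only [Finset.sum_const, Finset.card_range, nsmul_eq_mul, mul_one] at e
    push_cast at e
    linarith

end Pool.Agent.Helper791.RSA
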