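import Pool.Agent.Helper791_RSA.Defs

set_option autoImplicit false

namespace Pool.Agent.Helper791.RSA

open Filter Topology MeasureTheory ProbabilityTheory



theorem G_lim (u : ℕ → ℝ) (C ρ : ℝ) (hρ1 : ρ < 1)
    (h : ∀ k, |u (k + 1) - u k| ≤ C * ρ ^ k) :
    ∃ a : ℝ, ∀ k, |u k - a| ≤ C / (1 - ρ) * ρ ^ k := by
  have hd : ∀ n, dist (u n) (u (n + 1)) ≤ C * ρ ^ n := by
    intro n
    rw [dist_comm, Real.dist_eq]
    exact h n
  have hc : CauchySeq u := cauchySeq_of_le_geometric ρ C hρ1 hd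
  obtain ⟨a, ha⟩ := cauchySeq_tendsto_of_complete hc
  refine ⟨a, fun k => ?_⟩
  have h1 := dist_le_of_le_geometric_of_tendsto ρ C hρ1 hd ha k
  rw [Real.dist_eq] at h1
  calc |u k - a| ≤ C * ρ ^ k / (1 - ρ) := h1
    _ = C / (1 - ρ) * ρ ^ k := by ring

theorem G_diff (x e : ℕ → ℝ) (r : ℕ)
    (hx : ∀ n : ℕ, ((n : ℝ) + 1) * x (n + r) = 2 * ∑ j ∈ Finset.range (n + 1), x j + e n)
    (n : ℕ) : ((n : ℝ) + 2) * x (n + 1 + r) - ((n : ℝ) + 1) * x (n + r) =
      2 * x (n + 1) + e (n + 1) - e n := by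
  have h1 := hx n
  have h2 := hx (n + 1)
  rw [Finset.sum_range_succ] at h2
  push_cast at h2
  linear_combination h2 - h1

theorem G_theta (x e : ℕ → ℝ) (r : ℕ)
    (hx : ∀ n : ℕ, ((n : ℝ) + 1) * x (n + r) = 2 * ∑ j ∈ Finset.range (n + 1), x j + e n)
    (n : ℕ) : ((n : ℝ) + 3) * ((x (n + r + 2) - x (n + r + 1)) - (x (n + r + 1) - x (n + r))) =
      2 * ((x (n + 2) - x (n + 1)) - (x (n + r + 1) - x (n + r))) +
        (e (n + 2) - 2 * e (n + 1) + e n) := by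
  have h1 := G_diff x e r hx n
  have h2 := G_diff x e r hx (n + 1)
  push_cast at h2
  have e1 : n + 1 + r = n + r + 1 := by omega
  have e2 : n + 1 + 1 + r = n + r + 2 := by omega
  have e3 : n + 1 + 1 = n + 2 := by omega
  rw [e1] at h1 h2
  rw [e2, e3] at h2
  linear_combination h2 - h1

theorem G_tele (D : ℕ → ℝ) (n m : ℕ) :
    |D n - D (n + m)| ≤ ∑ i ∈ Finset.range m, |D (n + i + 1) - D (n + i)| := by
  induction m with
  | zero => simp
  | succ m ih =>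
    rw [Finset.sum_range_succ]
    have h1 : D n - D (n + (m + 1)) = (D n - D (n + m)) - (D (n + m + 1) - D (n + m)) := by
      rw [← add_assoc]; ring
    rw [h1]
    exact (abs_sub _ _).trans (add_le_add ih le_rfl)

theorem G_geo (θ : ℕ → ℝ) (r : ℕ) (ρ K : ℝ) (hK : 0 ≤ K) (hρ0 : 0 < ρ) (hρ1 : ρ < 1)
    (h : ∀ n : ℕ, ((n : ℝ) + 3) * |θ (n + r)| ≤
      2 * ∑ i ∈ Finset.range (r - 1), |θ (n + 1 + i)| + 4 * K * ρ ^ n) (hr : 1 ≤ r) :
    ∃ C : ℝ, ∀ k, |θ k| ≤ C * ρ ^ k := by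
  obtain ⟨n₀, hn₀⟩ := exists_nat_ge ((2 * (r : ℝ) + 4) / ρ ^ r)
  have hS : 0 ≤ ∑ k ∈ Finset.range (n₀ + r), |θ k| / ρ ^ k :=
    Finset.sum_nonneg fun k _ => div_nonneg (abs_nonneg _) (pow_pos hρ0 k).le
  refine ⟨K + ∑ k ∈ Finset.range (n₀ + r), |θ k| / ρ ^ k, fun k => ?_⟩
  set C := K + ∑ k ∈ Finset.range (n₀ + r), |θ k| / ρ ^ k with hC
  have hCK : K ≤ C := by linarith
  have hC0 : 0 ≤ C := hK.trans hCK
  induction k using Nat.strong_induction_on with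
  | _ k ih =>
    by_cases hk : k < n₀ + r
    · have h1 : |θ k| / ρ ^ k ≤ C := by
        have h2 := Finset.single_le_sum (f := fun k => |θ k| / ρ ^ k)
          (fun i _ => div_nonneg (abs_nonneg (θ i)) (pow_pos hρ0 i).le)
          (Finset.mem_range.2 hk)
        have h3 : |θ k| / ρ ^ k ≤ ∑ k ∈ Finset.range (n₀ + r), |θ k| / ρ ^ k := h2
        linarith
      rwa [div_le_iff₀ (pow_pos hρ0 k)] at h1
    · obtain ⟨n, rfl⟩ : ∃ n, k = n + r := ⟨k - r, by omega⟩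
      have hn : n₀ ≤ n := by omega
      have h1 := h n
      have h2 : ∑ i ∈ Finset.range (r - 1), |θ (n + 1 + i)| ≤ (r : ℝ) * (C * ρ ^ n) := by
        calc ∑ i ∈ Finset.range (r - 1), |θ (n + 1 + i)|
            ≤ ∑ _i ∈ Finset.range (r - 1), C * ρ ^ n := by
              refine Finset.sum_le_sum fun i hi => ?_
              rw [Finset.mem_range] at hi
              have h3 := ih (n + 1 + i) (by omega)
              have h4 : ρ ^ (n + 1 + i) ≤ ρ ^ n :=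
                pow_le_pow_of_le_one hρ0.le hρ1.le (by omega)
              exact h3.trans (mul_le_mul_of_nonneg_left h4 hC0)
          _ = ((r - 1 : ℕ) : ℝ) * (C * ρ ^ n) := by
              rw [Finset.sum_const, Finset.card_range, nsmul_eq_mul]
          _ ≤ (r : ℝ) * (C * ρ ^ n) := by
              refine mul_le_mul_of_nonneg_right ?_ (mul_nonneg hC0 (pow_pos hρ0 n).le)
              exact_mod_cast Nat.sub_le r 1
      have h5 : (2 * (r : ℝ) + 4) ≤ ((n : ℝ) + 3) * ρ ^ r := by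
        have h6 : (2 * (r : ℝ) + 4) / ρ ^ r ≤ (n : ℝ) + 3 := by
          have : (n₀ : ℝ) ≤ n := by exact_mod_cast hn
          linarith
        rwa [div_le_iff₀ (pow_pos hρ0 r)] at h6
      have hp : 0 < ρ ^ n := pow_pos hρ0 n
      have h7 : ((n : ℝ) + 3) * |θ (n + r)| ≤ ((n : ℝ) + 3) * (C * ρ ^ (n + r)) := by
        calc ((n : ℝ) + 3) * |θ (n + r)| ≤ 2 * ((r : ℝ) * (C * ρ ^ n)) + 4 * K * ρ ^ n := by
              linarith
          _ ≤ 2 * ((r : ℝ) * (C * ρ ^ n)) + 4 * C * ρ ^ n := by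
              have := mul_le_mul_of_nonneg_right hCK hp.le
              linarith
          _ = (2 * (r : ℝ) + 4) * (C * ρ ^ n) := by ring
          _ ≤ (((n : ℝ) + 3) * ρ ^ r) * (C * ρ ^ n) :=
              mul_le_mul_of_nonneg_right h5 (mul_nonneg hC0 hp.le)
          _ = ((n : ℝ) + 3) * (C * ρ ^ (n + r)) := by rw [pow_add]; ring
      exact le_of_mul_le_mul_left h7 (by positivity)

/-! END -/

/-- TARGET -/
theorem decay (r : ℕ) (hr : 1 ≤ r) (x e : ℕ → ℝ) (ρ K : ℝ) (hρ0 : 0 < ρ) (hρ1 : ρ < 1)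
    (he : ∀ n, |e n| ≤ K * ρ ^ n)
    (hx : ∀ n : ℕ, ((n : ℝ) + 1) * x (n + r) = 2 * ∑ j ∈ Finset.range (n + 1), x j + e n) :
    ∃ L β C : ℝ, ∀ n : ℕ, |x n - (L * n + β)| ≤ C * ρ ^ n := by
  have hK : 0 ≤ K := by
    have := he 0
    rw [pow_zero, mul_one] at this
    exact (abs_nonneg _).trans this
  set D : ℕ → ℝ := fun k => x (k + 1) - x k with hD
  obtain ⟨C₁, hC₁⟩ := G_geo (fun k => D (k + 1) - D k) r ρ K hK hρ0 hρ1 (by
    intro n
    have h1 := G_theta x e r hx n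
    have h2 : ((n : ℝ) + 3) * |D (n + r + 1) - D (n + r)| =
        |2 * (D (n + 1) - D (n + r)) + (e (n + 2) - 2 * e (n + 1) + e n)| := by
      have h3 : ((n : ℝ) + 3) * (D (n + r + 1) - D (n + r)) =
          2 * (D (n + 1) - D (n + r)) + (e (n + 2) - 2 * e (n + 1) + e n) := h1
      rw [← h3, abs_mul, abs_of_nonneg (by positivity : (0 : ℝ) ≤ (n : ℝ) + 3)]
    have h4 : |D (n + 1) - D (n + r)| ≤
        ∑ i ∈ Finset.range (r - 1), |D (n + 1 + i + 1) - D (n + 1 + i)| := by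
      have h5 := G_tele D (n + 1) (r - 1)
      have h6 : n + 1 + (r - 1) = n + r := by omega
      rwa [h6] at h5
    have h7 : |e (n + 2) - 2 * e (n + 1) + e n| ≤ 4 * K * ρ ^ n := by
      have p1 : ρ ^ (n + 2) ≤ ρ ^ n := pow_le_pow_of_le_one hρ0.le hρ1.le (by omega)
      have p2 : ρ ^ (n + 1) ≤ ρ ^ n := pow_le_pow_of_le_one hρ0.le hρ1.le (by omega)
      have q1 := (he (n + 2)).trans (mul_le_mul_of_nonneg_left p1 hK)
      have q2 := (he (n + 1)).trans (mul_le_mul_of_nonneg_left p2 hK)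
      have q3 := he n
      rw [abs_le] at q1 q2 q3 ⊢
      constructor <;> linarith [q1.1, q1.2, q2.1, q2.2, q3.1, q3.2]
    change ((n : ℝ) + 3) * |D (n + r + 1) - D (n + r)| ≤
      2 * ∑ i ∈ Finset.range (r - 1), |D (n + 1 + i + 1) - D (n + 1 + i)| + 4 * K * ρ ^ n
    rw [h2]
    calc |2 * (D (n + 1) - D (n + r)) + (e (n + 2) - 2 * e (n + 1) + e n)|
        ≤ |2 * (D (n + 1) - D (n + r))| + |e (n + 2) - 2 * e (n + 1) + e n| := abs_add_le _ _
      _ = 2 * |D (n + 1) - D (n + r)| + |e (n + 2) - 2 * e (n + 1) + e n| := by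
          rw [abs_mul, abs_of_pos (by norm_num : (0 : ℝ) < 2)]
      _ ≤ _ := by linarith) hr
  obtain ⟨L, hL⟩ := G_lim D C₁ ρ hρ1 hC₁
  obtain ⟨β, hβ⟩ := G_lim (fun k => x k - L * k) (C₁ / (1 - ρ)) ρ hρ1 (by
    intro k
    have h1 : (x (k + 1) - L * ((k + 1 : ℕ) : ℝ)) - (x k - L * (k : ℝ)) = D k - L := by
      rw [hD]
      push_cast
      ring
    change |(x (k + 1) - L * ((k + 1 : ℕ) : ℝ)) - (x k - L * (k : ℝ))| ≤ _
    rw [h1]
    exact hL k)
  refine ⟨L, β, C₁ / (1 - ρ) / (1 - ρ), fun n => ?_⟩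
  have h1 := hβ n
  have h2 : x n - (L * n + β) = x n - L * n - β := by ring
  rw [h2]
  exact h1

end Pool.Agent.Helper791.RSA
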