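import Pool.Agent.Helper791_RSA.Defs

set_option autoImplicit false

namespace Pool.Agent.Helper791.RSA

open Filter Topology MeasureTheory ProbabilityTheory



/-! END -/

/-- TARGET -/
theorem intercept (r : ℕ) (hr : 1 ≤ r) (x e : ℕ → ℝ) (ρ K : ℝ) (hρ0 : 0 < ρ) (hρ1 : ρ < 1)
    (he : ∀ n, |e n| ≤ K * ρ ^ n)
    (hx : ∀ n : ℕ, ((n : ℝ) + 1) * x (n + r) = 2 * ∑ j ∈ Finset.range (n + 1), x j + e n)
    (L β C : ℝ) (h : ∀ n : ℕ, |x n - (L * n + β)| ≤ C * ρ ^ n) : β = r * L := by
  set d : ℕ → ℝ := fun n => x n - (L * n + β) with hd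
  have hC0 : 0 ≤ C := by
    have := h 0
    rw [pow_zero, mul_one] at this
    exact (abs_nonneg _).trans this
  have hK0 : 0 ≤ K := by
    have := he 0
    rw [pow_zero, mul_one] at this
    exact (abs_nonneg _).trans this
  have hpow : Tendsto (fun n : ℕ => ρ ^ n) atTop (𝓝 0) :=
    tendsto_pow_atTop_nhds_zero_of_lt_one hρ0.le hρ1
  have hd0 : Tendsto d atTop (𝓝 0) := by
    refine squeeze_zero_norm (fun n => ?_) (by simpa using hpow.const_mul C)
    exact h n
  have hsum : ∀ n : ℕ, |∑ j ∈ Finset.range (n + 1), d j| ≤ C * (1 - ρ)⁻¹ := by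
    intro n
    refine (Finset.abs_sum_le_sum_abs _ _).trans ?_
    refine (Finset.sum_le_sum fun j _ => h j).trans ?_
    rw [← Finset.mul_sum]
    apply mul_le_mul_of_nonneg_left _ hC0
    rw [← tsum_geometric_of_lt_one hρ0.le hρ1]
    exact (summable_geometric_of_lt_one hρ0.le hρ1).sum_le_tsum _ fun i _ => by positivity
  have hkey : ∀ n : ℕ, (r : ℝ) * L - β =
      (2 * ∑ j ∈ Finset.range (n + 1), d j + e n) / ((n : ℝ) + 1) - d (n + r) := by
    intro n
    have hn1 : ((n : ℝ) + 1) ≠ 0 := by positivity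
    have h1 := hx n
    have h2 : x (n + r) = L * ((n : ℝ) + r) + β + d (n + r) := by
      simp only [hd]
      push_cast
      ring
    have h3 : ∑ j ∈ Finset.range (n + 1), x j =
        L * (n * (n + 1) / 2) + β * (n + 1) + ∑ j ∈ Finset.range (n + 1), d j := by
      have e1 : ∀ j, x j = (L * (j : ℝ) + β) + d j := by
        intro j
        simp only [hd]
        ring
      have e2 : ∑ j ∈ Finset.range (n + 1), (j : ℝ) = n * (n + 1) / 2 := by
        induction n with
        | zero => simp
        | succ n ih =>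
          rw [Finset.sum_range_succ, ih (by positivity) (hx n)
            (by simp only [hd]; push_cast; ring)]
          push_cast
          ring
      rw [Finset.sum_congr rfl fun j _ => e1 j, Finset.sum_add_distrib, Finset.sum_add_distrib,
        ← Finset.mul_sum, e2, Finset.sum_const, Finset.card_range, nsmul_eq_mul]
      push_cast
      ring
    rw [h2, h3] at h1
    have h4 : (2 * ∑ j ∈ Finset.range (n + 1), d j + e n) / ((n : ℝ) + 1) =
        (r : ℝ) * L - β + d (n + r) := by
      rw [div_eq_iff hn1]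
      linarith
    rw [h4]
    ring
  have hlim : Tendsto (fun n : ℕ => (2 * ∑ j ∈ Finset.range (n + 1), d j + e n) / ((n : ℝ) + 1) -
      d (n + r)) atTop (𝓝 0) := by
    have t1 : Tendsto (fun n : ℕ => d (n + r)) atTop (𝓝 0) :=
      hd0.comp (tendsto_add_atTop_nat r)
    have t2 : Tendsto (fun n : ℕ => (2 * ∑ j ∈ Finset.range (n + 1), d j + e n) / ((n : ℝ) + 1))
        atTop (𝓝 0) := by
      have t3 : Tendsto (fun n : ℕ => (2 * (C * (1 - ρ)⁻¹) + K) * (1 / ((n : ℝ) + 1))) atTop
          (𝓝 0) := by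
        simpa using tendsto_one_div_add_atTop_nhds_zero_nat.const_mul (2 * (C * (1 - ρ)⁻¹) + K)
      refine squeeze_zero_norm (fun n => ?_) t3
      have hn1 : (0 : ℝ) < (n : ℝ) + 1 := by positivity
      rw [Real.norm_eq_abs, abs_div, abs_of_pos hn1, div_eq_mul_one_div]
      apply mul_le_mul_of_nonneg_right _ (by positivity)
      refine (abs_add_le _ _).trans (add_le_add ?_ ?_)
      · rw [abs_mul, abs_of_pos (by norm_num : (0 : ℝ) < 2)]
        exact mul_le_mul_of_nonneg_left (hsum n) (by norm_num)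
      · refine (he n).trans ?_
        calc K * ρ ^ n ≤ K * 1 := mul_le_mul_of_nonneg_left (pow_le_one₀ hρ0.le hρ1.le) hK0
          _ = K := mul_one K
    simpa using t2.sub t1
  have hconst : Tendsto (fun _ : ℕ => (r : ℝ) * L - β) atTop (𝓝 0) := by
    refine hlim.congr fun n => ?_
    rw [← hkey n]
  have := tendsto_nhds_unique hconst tendsto_const_nhds
  linarith

end Pool.Agent.Helper791.RSA
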