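import Pool.Agent.Helper791_RSA.Defs

set_option autoImplicit false

namespace Pool.Agent.Helper791.RSA

open Filter Topology MeasureTheory ProbabilityTheory



lemma I_summable (c : ℕ → ℝ) (K : ℝ) (p : ℕ) (hc : ∀ n : ℕ, |c n| ≤ K * ((n : ℝ) + 1) ^ p) {z : ℝ}
    (hz : |z| < 1) : Summable fun n : ℕ => ‖c n * z ^ n‖ := by
  have hK : 0 ≤ K := by
    have h := hc 0
    have h1 := abs_nonneg (c 0)
    simp at h
    linarith
  have h1 : Summable fun n : ℕ => ((n : ℝ) ^ p) * |z| ^ n :=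
    summable_pow_mul_geometric_of_norm_lt_one p (by rwa [Real.norm_eq_abs, abs_abs])
  have h2 : Summable fun n : ℕ => |z| ^ n := summable_geometric_of_lt_one (abs_nonneg z) hz
  have h3 : Summable fun n : ℕ => K * 2 ^ p * ((n : ℝ) ^ p * |z| ^ n) + K * 2 ^ p * |z| ^ n :=
    (h1.mul_left (K * 2 ^ p)).add (h2.mul_left (K * 2 ^ p))
  refine Summable.of_nonneg_of_le (fun n => norm_nonneg _) (fun n => ?_) h3
  rw [norm_mul, norm_pow, Real.norm_eq_abs, Real.norm_eq_abs]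
  have h4 : ((n : ℝ) + 1) ^ p ≤ 2 ^ p * (n : ℝ) ^ p + 2 ^ p := by
    rcases Nat.eq_zero_or_pos n with h0 | h0
    · subst h0
      have : (1 : ℝ) ≤ 2 ^ p := one_le_pow₀ (by norm_num)
      have h5 : (0 : ℝ) ≤ 2 ^ p * ((0 : ℕ) : ℝ) ^ p := by positivity
      simp only [Nat.cast_zero, zero_add, one_pow] at *
      linarith
    · have h5 : (1 : ℝ) ≤ n := by exact_mod_cast h0
      have h6 : ((n : ℝ) + 1) ^ p ≤ (2 * (n : ℝ)) ^ p := by
        apply pow_le_pow_left₀ (by positivity)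
        linarith
      rw [mul_pow] at h6
      have h7 : (0 : ℝ) ≤ 2 ^ p := by positivity
      linarith
  have h5 : |c n| ≤ K * (2 ^ p * (n : ℝ) ^ p + 2 ^ p) :=
    (hc n).trans (mul_le_mul_of_nonneg_left h4 hK)
  calc |c n| * |z| ^ n ≤ K * (2 ^ p * (n : ℝ) ^ p + 2 ^ p) * |z| ^ n :=
        mul_le_mul_of_nonneg_right h5 (by positivity)
    _ = _ := by ring

lemma I_deriv (c : ℕ → ℝ) (K : ℝ) (p : ℕ) (hc : ∀ n : ℕ, |c n| ≤ K * ((n : ℝ) + 1) ^ p) {z : ℝ}
    (hz : |z| < 1) : HasDerivAt (fun w : ℝ => ∑' n : ℕ, c n * w ^ n)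
      (∑' n : ℕ, ((n : ℝ) + 1) * c (n + 1) * z ^ n) z := by
  have hK : 0 ≤ K := by
    have h := hc 0
    have h1 := abs_nonneg (c 0)
    simp at h
    linarith
  obtain ⟨q, hq1, hq2⟩ := exists_between hz
  have hq0 : 0 < q := lt_of_le_of_lt (abs_nonneg z) hq1
  -- the derivative coefficients
  have hd : ∀ n : ℕ, |((n : ℝ) + 1) * c (n + 1)| ≤ K * 2 ^ p * ((n : ℝ) + 1) ^ (p + 1) := by
    intro n
    rw [abs_mul, abs_of_nonneg (by positivity : (0 : ℝ) ≤ (n : ℝ) + 1)]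
    have h1 := hc (n + 1)
    push_cast at h1
    have h2 : ((n : ℝ) + 1 + 1) ^ p ≤ (2 * ((n : ℝ) + 1)) ^ p := by
      apply pow_le_pow_left₀ (by positivity)
      have : (0 : ℝ) ≤ n := Nat.cast_nonneg n
      linarith
    rw [mul_pow] at h2
    have h3 : |c (n + 1)| ≤ K * (2 ^ p * ((n : ℝ) + 1) ^ p) :=
      h1.trans (mul_le_mul_of_nonneg_left h2 hK)
    calc ((n : ℝ) + 1) * |c (n + 1)| ≤ ((n : ℝ) + 1) * (K * (2 ^ p * ((n : ℝ) + 1) ^ p)) :=
          mul_le_mul_of_nonneg_left h3 (by positivity)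
      _ = _ := by ring
  have hs : Summable fun n : ℕ => ‖((n : ℝ) + 1) * c (n + 1) * q ^ n‖ :=
    I_summable _ _ _ hd (by rwa [abs_of_pos hq0])
  let u : ℕ → ℝ := fun n => ‖c n * ((n : ℝ) * q ^ (n - 1))‖
  have hu : Summable u := by
    rw [← summable_nat_add_iff 1]
    refine hs.congr fun n => ?_
    simp only [u]
    congr 1
    push_cast
    ring_nf
  have key := hasDerivAt_tsum_of_isPreconnected (g := fun (n : ℕ) (w : ℝ) => c n * w ^ n)
    (g' := fun (n : ℕ) (w : ℝ) => c n * ((n : ℝ) * w ^ (n - 1))) (u := u)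
    (t := Set.Ioo (-q) q) (y₀ := (0 : ℝ)) (y := z) hu isOpen_Ioo isPreconnected_Ioo
    (fun n y _ => (hasDerivAt_pow n y).const_mul (c n))
    (fun n y hy => by
      simp only [u]
      rw [norm_mul, norm_mul, norm_mul, norm_mul, norm_pow, norm_pow]
      have h1 : ‖y‖ ≤ ‖q‖ := by
        rw [Real.norm_eq_abs, Real.norm_eq_abs, abs_of_pos hq0]
        exact (abs_lt.2 hy).le
      gcongr)
    ⟨by linarith, hq0⟩
    ((I_summable c K p hc (z := 0) (by simp)).of_norm)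
    (abs_lt.1 hq1)
  have h2 : (∑' n : ℕ, c n * ((n : ℝ) * z ^ (n - 1))) = ∑' n : ℕ, ((n : ℝ) + 1) * c (n + 1) * z ^ n := by
    have hs2 : Summable fun n : ℕ => c n * ((n : ℝ) * z ^ (n - 1)) := by
      refine Summable.of_norm_bounded hu fun n => ?_
      simp only [u]
      rw [norm_mul, norm_mul, norm_mul, norm_mul, norm_pow, norm_pow]
      have h1 : ‖z‖ ≤ ‖q‖ := by
        rw [Real.norm_eq_abs, Real.norm_eq_abs, abs_of_pos hq0]
        exact hq1.le
      gcongr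
    rw [hs2.tsum_eq_zero_add]
    simp only [Nat.cast_zero, zero_mul, mul_zero, zero_add]
    refine tsum_congr fun n => ?_
    push_cast
    ring_nf
  rw [← h2]
  exact key

lemma I_hh (r : ℕ) (hr : 2 ≤ r) (z : ℝ) :
    HasDerivAt (hh r) (∑ k ∈ Finset.range (r - 1), z ^ k) z := by
  have h1 : HasDerivAt (fun x : ℝ => ∑ k ∈ Finset.Ico 1 r, x ^ k / (k : ℝ))
      (∑ k ∈ Finset.Ico 1 r, ((k : ℝ) * z ^ (k - 1)) / (k : ℝ)) z :=
    HasDerivAt.fun_sum fun k _ => (hasDerivAt_pow k z).div_const (k : ℝ)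
  have h2 : (∑ k ∈ Finset.Ico 1 r, ((k : ℝ) * z ^ (k - 1)) / (k : ℝ)) =
      ∑ k ∈ Finset.range (r - 1), z ^ k := by
    rw [Finset.sum_Ico_eq_sum_range]
    refine Finset.sum_congr rfl fun k _ => ?_
    have h3 : ((1 + k : ℕ) : ℝ) ≠ 0 := by positivity
    rw [mul_comm, mul_div_assoc, div_self h3, mul_one]
    congr 1
    omega
  rw [h2] at h1
  exact h1

lemma I_cont (c : ℕ → ℝ) (K : ℝ) (p : ℕ) (hc : ∀ n : ℕ, |c n| ≤ K * ((n : ℝ) + 1) ^ p) {z : ℝ}
    (hz : |z| < 1) : ContinuousAt (fun w : ℝ => ∑' n : ℕ, c n * w ^ n) z :=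
  (I_deriv c K p hc hz).continuousAt

lemma I_G' (r : ℕ) (hr : 2 ≤ r) (x e : ℕ → ℝ) (K : ℝ) (p : ℕ)
    (hxb : ∀ n : ℕ, |x n| ≤ K * ((n : ℝ) + 1) ^ p) (heb : ∀ n : ℕ, |e n| ≤ K * ((n : ℝ) + 1) ^ p)
    (h0 : ∀ n, n < r → x n = 0)
    (hx : ∀ n : ℕ, ((n : ℝ) + 1) * x (n + r) = 2 * ∑ j ∈ Finset.range (n + 1), x j + e n)
    (z : ℝ) (hz : |z| < 1) :
    (∑' n : ℕ, ((n : ℝ) + 1) * x (n + 1 + (r - 1)) * z ^ n) =
      2 * ((z ^ (r - 1) * ∑' i : ℕ, x (i + (r - 1)) * z ^ i) * (1 - z)⁻¹) + ∑' n : ℕ, e n * z ^ n := by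
  have hsx : Summable fun n : ℕ => ‖x n * z ^ n‖ := I_summable x K p hxb hz
  have hse : Summable fun n : ℕ => e n * z ^ n := (I_summable e K p heb hz).of_norm
  have hsg : Summable fun n : ℕ => ‖z ^ n‖ := by
    simp only [norm_pow]
    exact summable_geometric_of_lt_one (norm_nonneg z) (by rwa [Real.norm_eq_abs])
  have hX : (∑' n : ℕ, x n * z ^ n) = z ^ (r - 1) * ∑' i : ℕ, x (i + (r - 1)) * z ^ i := by
    rw [← hsx.of_norm.sum_add_tsum_nat_add (r - 1)]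
    rw [Finset.sum_eq_zero, zero_add, ← tsum_mul_left]
    · refine tsum_congr fun i => ?_
      rw [pow_add]
      ring
    · intro i hi
      rw [Finset.mem_range] at hi
      rw [h0 i (by omega), zero_mul]
  have hC : (∑' n : ℕ, x n * z ^ n) * (∑' n : ℕ, z ^ n) =
      ∑' n : ℕ, (∑ j ∈ Finset.range (n + 1), x j) * z ^ n := by
    rw [tsum_mul_tsum_eq_tsum_sum_range_of_summable_norm hsx hsg]
    refine tsum_congr fun n => ?_
    rw [Finset.sum_mul]
    refine Finset.sum_congr rfl fun k hk => ?_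
    rw [Finset.mem_range] at hk
    rw [mul_assoc, ← pow_add]
    congr 2
    omega
  have hsC : Summable fun n : ℕ => (∑ j ∈ Finset.range (n + 1), x j) * z ^ n := by
    have h1 := (summable_norm_sum_mul_range_of_summable_norm hsx hsg).of_norm
    refine h1.congr fun n => ?_
    rw [Finset.sum_mul]
    refine Finset.sum_congr rfl fun k hk => ?_
    rw [Finset.mem_range] at hk
    rw [mul_assoc, ← pow_add]
    congr 2
    omega
  have hgeo : (∑' n : ℕ, z ^ n) = (1 - z)⁻¹ :=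
    tsum_geometric_of_norm_lt_one (by rwa [Real.norm_eq_abs])
  rw [← hX, ← hgeo, hC, ← tsum_mul_left, ← (hsC.mul_left 2).tsum_add hse]
  refine tsum_congr fun n => ?_
  have h1 := hx n
  have h2 : n + 1 + (r - 1) = n + r := by omega
  rw [h2, h1]
  ring

/-! END -/

/-- TARGET -/
theorem ode (r : ℕ) (hr : 2 ≤ r) (x e : ℕ → ℝ) (K : ℝ) (p : ℕ)
    (hxb : ∀ n : ℕ, |x n| ≤ K * ((n : ℝ) + 1) ^ p) (heb : ∀ n : ℕ, |e n| ≤ K * ((n : ℝ) + 1) ^ p)
    (h0 : ∀ n, n < r → x n = 0)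
    (hx : ∀ n : ℕ, ((n : ℝ) + 1) * x (n + r) = 2 * ∑ j ∈ Finset.range (n + 1), x j + e n)
    (z : ℝ) (hz0 : 0 ≤ z) (hz1 : z < 1) :
    (1 - z) ^ 2 * Real.exp (2 * hh r z) * ∑' i : ℕ, x (i + (r - 1)) * z ^ i =
      ∫ t in (0 : ℝ)..z, (1 - t) ^ 2 * Real.exp (2 * hh r t) * ∑' n : ℕ, e n * t ^ n := by
  have hK : 0 ≤ K := by
    have h := hxb 0
    have h1 := abs_nonneg (x 0)
    simp at h
    linarith
  set c : ℕ → ℝ := fun n => x (n + (r - 1)) with hc
  have hcb : ∀ n : ℕ, |c n| ≤ K * (r : ℝ) ^ p * ((n : ℝ) + 1) ^ p := by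
    intro n
    have h1 := hxb (n + (r - 1))
    have h2 : (((n + (r - 1) : ℕ) : ℝ) + 1) ^ p ≤ ((r : ℝ) * ((n : ℝ) + 1)) ^ p := by
      apply pow_le_pow_left₀ (by positivity)
      have h3 : (((n + (r - 1) : ℕ) : ℝ) + 1) = (n : ℝ) + r := by
        have : n + (r - 1) + 1 = n + r := by omega
        exact_mod_cast this
      rw [h3]
      have h4 : (2 : ℝ) ≤ r := by exact_mod_cast hr
      have h5 : (0 : ℝ) ≤ n := Nat.cast_nonneg n
      nlinarith
    rw [mul_pow] at h2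
    calc |c n| ≤ K * (((n + (r - 1) : ℕ) : ℝ) + 1) ^ p := h1
      _ ≤ K * ((r : ℝ) ^ p * ((n : ℝ) + 1) ^ p) := mul_le_mul_of_nonneg_left h2 hK
      _ = _ := by ring
  have hder : ∀ t ∈ Set.uIcc 0 z, HasDerivAt
      (fun w : ℝ => (1 - w) ^ 2 * Real.exp (2 * hh r w) * ∑' i : ℕ, c i * w ^ i)
      ((1 - t) ^ 2 * Real.exp (2 * hh r t) * ∑' n : ℕ, e n * t ^ n) t := by
    intro t ht
    rw [Set.uIcc_of_le hz0] at ht
    have ht1 : |t| < 1 := by
      rw [abs_of_nonneg ht.1]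
      linarith [ht.2]
    have h1t : (1 - t) ≠ 0 := by
      have := ht.2
      intro h
      linarith
    have hG := I_deriv c _ p hcb ht1
    have hG' := I_G' r hr x e K p hxb heb h0 hx t ht1
    have hH := I_hh r hr t
    have hE : HasDerivAt (fun w : ℝ => Real.exp (2 * hh r w))
        (Real.exp (2 * hh r t) * (2 * ∑ k ∈ Finset.range (r - 1), t ^ k)) t :=
      (hH.const_mul 2).exp
    have hP : HasDerivAt (fun w : ℝ => (1 - w) ^ 2) (2 * (1 - t) * (-1)) t := by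
      have h := HasDerivAt.fun_pow ((hasDerivAt_id' t).const_sub 1) 2
      refine h.congr_deriv ?_
      norm_num
    have hall := (hP.mul hE).mul hG
    have hgs : (∑ k ∈ Finset.range (r - 1), t ^ k) * (1 - t) = 1 - t ^ (r - 1) := by
      have := geom_sum_mul_neg t (r - 1)
      exact this
    have heq : ((2 * (1 - t) * (-1)) * Real.exp (2 * hh r t) +
        (1 - t) ^ 2 * (Real.exp (2 * hh r t) * (2 * ∑ k ∈ Finset.range (r - 1), t ^ k))) *
          (∑' n : ℕ, c n * t ^ n) +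
        ((1 - t) ^ 2 * Real.exp (2 * hh r t)) * (∑' n : ℕ, ((n : ℝ) + 1) * c (n + 1) * t ^ n) =
        (1 - t) ^ 2 * Real.exp (2 * hh r t) * ∑' n : ℕ, e n * t ^ n := by
      have hg2 : (∑' n : ℕ, ((n : ℝ) + 1) * c (n + 1) * t ^ n) =
          2 * ((t ^ (r - 1) * ∑' i : ℕ, c i * t ^ i) * (1 - t)⁻¹) + ∑' n : ℕ, e n * t ^ n := hG'
      rw [hg2]
      have hS : (∑ k ∈ Finset.range (r - 1), t ^ k) = (1 - t ^ (r - 1)) * (1 - t)⁻¹ := by
        rw [← hgs, mul_assoc, mul_inv_cancel₀ h1t, mul_one]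
      rw [hS]
      generalize (∑' n : ℕ, c n * t ^ n) = G
      generalize (∑' n : ℕ, e n * t ^ n) = E
      generalize Real.exp (2 * hh r t) = X
      generalize t ^ (r - 1) = T
      field_simp
      ring
    rw [← heq]
    exact hall
  have hint : IntervalIntegrable (fun t : ℝ => (1 - t) ^ 2 * Real.exp (2 * hh r t) * ∑' n : ℕ, e n * t ^ n)
      MeasureTheory.volume 0 z := by
    apply ContinuousOn.intervalIntegrable
    intro t ht
    rw [Set.uIcc_of_le hz0] at ht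
    have ht1 : |t| < 1 := by
      rw [abs_of_nonneg ht.1]
      linarith [ht.2]
    refine ContinuousAt.continuousWithinAt ?_
    refine ContinuousAt.mul (ContinuousAt.mul (by fun_prop) ?_) (I_cont e K p heb ht1)
    exact ((I_hh r hr t).continuousAt.const_mul 2).rexp
  have hfin := intervalIntegral.integral_eq_sub_of_hasDerivAt hder hint
  rw [hfin]
  have hG0 : (∑' i : ℕ, c i * (0 : ℝ) ^ i) = 0 := by
    have : ∀ i : ℕ, c i * (0 : ℝ) ^ i = 0 := by
      intro i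
      rcases Nat.eq_zero_or_pos i with hi | hi
      · subst hi
        simp only [hc, zero_add]
        rw [h0 (r - 1) (by omega), zero_mul]
      · rw [zero_pow (by omega), mul_zero]
    simp only [this, tsum_zero]
  rw [hG0, mul_zero, sub_zero]

end Pool.Agent.Helper791.RSA
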