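import Pool.Agent.Helper791_RSA.Defs

set_option autoImplicit false

namespace Pool.Agent.Helper791.RSA

open Filter Topology MeasureTheory ProbabilityTheory



/-! END -/

/-- TARGET -/
theorem abel (x : ℕ → ℝ) (L β C ρ : ℝ) (hρ0 : 0 < ρ) (hρ1 : ρ < 1)
    (h : ∀ n : ℕ, |x n - (L * n + β)| ≤ C * ρ ^ n) (q : ℕ) :
    Tendsto (fun z : ℝ => (1 - z) ^ 2 * ∑' i : ℕ, x (i + q) * z ^ i) (𝓝[<] 1) (𝓝 L) := by
  have hC : 0 ≤ C := by
    have h0 := h 0
    have h1 := (abs_nonneg _).trans h0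
    simpa using h1
  have herr : ∀ i : ℕ, |x (i + q) - (L * ((i : ℝ) + q) + β)| ≤ C * ρ ^ i := by
    intro i
    have h1 := h (i + q)
    push_cast at h1
    refine h1.trans ?_
    apply mul_le_mul_of_nonneg_left _ hC
    exact pow_le_pow_of_le_one hρ0.le hρ1.le (Nat.le_add_right i q)
  have hsρ : Summable fun i : ℕ => C * ρ ^ i :=
    (summable_geometric_of_lt_one hρ0.le hρ1).mul_left C
  have hts : ∑' i : ℕ, C * ρ ^ i = C / (1 - ρ) := by
    rw [tsum_mul_left, tsum_geometric_of_lt_one hρ0.le hρ1, div_eq_mul_inv]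
  -- the identity
  have hid : ∀ z : ℝ, 0 < z → z < 1 →
      |(1 - z) ^ 2 * ∑' i : ℕ, x (i + q) * z ^ i - (L * z + (L * q + β) * (1 - z))| ≤
        (1 - z) ^ 2 * (C / (1 - ρ)) := by
    intro z hz0 hz1
    have hzn : ‖z‖ < 1 := by rw [Real.norm_eq_abs, abs_of_pos hz0]; exact hz1
    have hz1' : (1 - z) ≠ 0 := by linarith
    have hb : ∀ i : ℕ, |(x (i + q) - (L * ((i : ℝ) + q) + β)) * z ^ i| ≤ C * ρ ^ i := by
      intro i
      rw [abs_mul, abs_of_nonneg (pow_nonneg hz0.le i)]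
      calc |x (i + q) - (L * ((i : ℝ) + q) + β)| * z ^ i ≤ (C * ρ ^ i) * 1 :=
            mul_le_mul (herr i) (pow_le_one₀ hz0.le hz1.le) (pow_nonneg hz0.le i)
              (mul_nonneg hC (pow_nonneg hρ0.le i))
        _ = C * ρ ^ i := mul_one _
    have hs0 : Summable fun i : ℕ => (x (i + q) - (L * ((i : ℝ) + q) + β)) * z ^ i :=
      Summable.of_norm_bounded hsρ (fun i => by rw [Real.norm_eq_abs]; exact hb i)
    have h1 := hasSum_coe_mul_geometric_of_norm_lt_one hzn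
    have h2 := hasSum_geometric_of_lt_one hz0.le hz1
    have h3 : HasSum (fun i : ℕ => L * ((i : ℝ) * z ^ i) + (L * q + β) * z ^ i +
        (x (i + q) - (L * ((i : ℝ) + q) + β)) * z ^ i)
        (L * (z / (1 - z) ^ 2) + (L * q + β) * (1 - z)⁻¹ +
          ∑' i : ℕ, (x (i + q) - (L * ((i : ℝ) + q) + β)) * z ^ i) :=
      ((h1.mul_left L).add (h2.mul_left (L * q + β))).add hs0.hasSum
    have h4 : ∑' i : ℕ, x (i + q) * z ^ i = L * (z / (1 - z) ^ 2) + (L * q + β) * (1 - z)⁻¹ +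
          ∑' i : ℕ, (x (i + q) - (L * ((i : ℝ) + q) + β)) * z ^ i := by
      rw [← h3.tsum_eq]
      congr 1
      ext i
      ring
    have h5 : |∑' i : ℕ, (x (i + q) - (L * ((i : ℝ) + q) + β)) * z ^ i| ≤ C / (1 - ρ) := by
      rw [← hts, ← Real.norm_eq_abs]
      exact tsum_of_norm_bounded hsρ.hasSum (fun i => by rw [Real.norm_eq_abs]; exact hb i)
    have h6 : (1 - z) ^ 2 * ∑' i : ℕ, x (i + q) * z ^ i - (L * z + (L * q + β) * (1 - z)) =
        (1 - z) ^ 2 * ∑' i : ℕ, (x (i + q) - (L * ((i : ℝ) + q) + β)) * z ^ i := by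
      rw [h4]
      field_simp
      ring
    rw [h6, abs_mul, abs_of_nonneg (sq_nonneg (1 - z))]
    exact mul_le_mul_of_nonneg_left h5 (sq_nonneg _)
  have hlim1 : Tendsto (fun z : ℝ => L * z + (L * q + β) * (1 - z)) (𝓝[<] 1) (𝓝 L) := by
    have : Continuous fun z : ℝ => L * z + (L * q + β) * (1 - z) := by fun_prop
    have h1 := (this.tendsto 1).mono_left (nhdsWithin_le_nhds (s := Set.Iio (1 : ℝ)))
    simpa using h1
  have hlim2 : Tendsto (fun z : ℝ => (1 - z) ^ 2 * (C / (1 - ρ))) (𝓝[<] 1) (𝓝 0) := by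
    have : Continuous fun z : ℝ => (1 - z) ^ 2 * (C / (1 - ρ)) := by fun_prop
    have h1 := (this.tendsto 1).mono_left (nhdsWithin_le_nhds (s := Set.Iio (1 : ℝ)))
    simpa using h1
  have hev : ∀ᶠ z : ℝ in 𝓝[<] 1, 0 < z ∧ z < 1 := by
    have h1 : Set.Ioo (0 : ℝ) 1 ∈ 𝓝[<] (1 : ℝ) := Ioo_mem_nhdsLT one_pos
    filter_upwards [h1] with z hz
    exact hz
  have hlim3 : Tendsto (fun z : ℝ => (1 - z) ^ 2 * ∑' i : ℕ, x (i + q) * z ^ i -
      (L * z + (L * q + β) * (1 - z))) (𝓝[<] 1) (𝓝 0) := by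
    apply squeeze_zero_norm' _ hlim2
    filter_upwards [hev] with z hz
    rw [Real.norm_eq_abs]
    exact hid z hz.1 hz.2
  have := hlim3.add hlim1
  simpa using this

end Pool.Agent.Helper791.RSA

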