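import Pool.Agent.Helper791_RSA.Defs

set_option autoImplicit false

namespace Pool.Agent.Helper791.RSA

open Filter Topology MeasureTheory ProbabilityTheory



theorem K_hh_contDiff (r : ℕ) : ContDiff ℝ 2 (hh r) := by
  unfold hh
  refine ContDiff.sum fun k _ => ?_
  exact (contDiff_id.pow k).div_const _

theorem K_hh_cont (r : ℕ) : Continuous (hh r) := (K_hh_contDiff r).continuous

theorem K_exp_contDiff (r : ℕ) : ContDiff ℝ 2 (fun t => Real.exp (2 * hh r t)) :=
  Real.contDiff_exp.comp (contDiff_const.mul (K_hh_contDiff r))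

theorem K_phi_hasDerivAt (r : ℕ) (t : ℝ) : HasDerivAt (phi r) (Real.exp (2 * hh r t)) t := by
  have hc : Continuous (fun t => Real.exp (2 * hh r t)) := (K_exp_contDiff r).continuous
  exact (hc.integral_hasStrictDerivAt 0 t).hasDerivAt

theorem K_phi_contDiff (r : ℕ) : ContDiff ℝ 2 (phi r) := by
  have h : ContDiff ℝ (1 + 1) (phi r) := by
    rw [contDiff_succ_iff_deriv]
    refine ⟨fun t => (K_phi_hasDerivAt r t).differentiableAt, fun h => ?_, ?_⟩
    · exact absurd h (by simp)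
    · have hd : deriv (phi r) = fun t => Real.exp (2 * hh r t) :=
        funext fun t => (K_phi_hasDerivAt r t).deriv
      rw [hd]
      exact (K_exp_contDiff r).of_le (by norm_num)
  have h2 : ((1 : WithTop ℕ∞) + 1) = 2 := by norm_num
  rw [h2] at h
  exact h

theorem K_gg_contDiff (r : ℕ) : ContDiff ℝ 2 (gg r) :=
  (Real.contDiff_exp.comp (contDiff_const.mul (K_hh_contDiff r))).mul (K_phi_contDiff r)

/-- `F t = t^(r-1) gg r t` -/
noncomputable def K_F (r : ℕ) (t : ℝ) : ℝ := t ^ (r - 1) * gg r t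

/-- `Ψ` -/
noncomputable def K_Psi (r : ℕ) (t : ℝ) : ℝ :=
  Real.exp (2 * hh r t - 2 * hh r 1) * ((1 - t) + K_F r t) ^ 2 - (aa r) ^ 2

theorem K_F_contDiff (r : ℕ) : ContDiff ℝ 2 (K_F r) :=
  (contDiff_id.pow _).mul (K_gg_contDiff r)

theorem K_Psi_contDiff (r : ℕ) : ContDiff ℝ 2 (K_Psi r) := by
  refine ContDiff.sub ?_ contDiff_const
  refine ContDiff.mul ?_ ?_
  · exact Real.contDiff_exp.comp ((contDiff_const.mul (K_hh_contDiff r)).sub contDiff_const)
  · exact (((contDiff_const.sub contDiff_id).add (K_F_contDiff r)).pow 2)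

theorem K_hh_deriv (r : ℕ) (hr : 2 ≤ r) : HasDerivAt (hh r) ((r : ℝ) - 1) 1 := by
  have h : HasDerivAt (fun x : ℝ => ∑ k ∈ Finset.Ico 1 r, x ^ k / (k : ℝ))
      (∑ k ∈ Finset.Ico 1 r, (1 : ℝ)) 1 := by
    refine HasDerivAt.fun_sum fun k hk => ?_
    have hk1 : (k : ℝ) ≠ 0 := by
      have := (Finset.mem_Ico.1 hk).1
      positivity
    have h1 := (hasDerivAt_pow k (1 : ℝ)).div_const (k : ℝ)
    have h2 : (k : ℝ) * 1 ^ (k - 1) / (k : ℝ) = 1 := by
      rw [one_pow, mul_one, div_self hk1]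
    rw [h2] at h1
    exact h1
  have h3 : (∑ k ∈ Finset.Ico 1 r, (1 : ℝ)) = (r : ℝ) - 1 := by
    rw [Finset.sum_const, Nat.card_Ico, nsmul_eq_mul, mul_one, Nat.cast_sub (by omega)]
    simp
  rw [h3] at h
  exact h

theorem K_gg_deriv (r : ℕ) (hr : 2 ≤ r) :
    HasDerivAt (gg r) (1 - 2 * ((r : ℝ) - 1) * aa r) 1 := by
  have h1 : HasDerivAt (fun x => Real.exp (-2 * hh r x))
      (Real.exp (-2 * hh r 1) * (-2 * ((r : ℝ) - 1))) 1 :=
    ((K_hh_deriv r hr).const_mul (-2)).exp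
  have h2 := h1.mul (K_phi_hasDerivAt r 1)
  have h3 : Real.exp (-2 * hh r 1) * (-2 * ((r : ℝ) - 1)) * phi r 1 +
      Real.exp (-2 * hh r 1) * Real.exp (2 * hh r 1) = 1 - 2 * ((r : ℝ) - 1) * aa r := by
    rw [← Real.exp_add, show -2 * hh r 1 + 2 * hh r 1 = 0 by ring, Real.exp_zero]
    unfold aa gg
    ring
  rw [← h3]
  exact h2

theorem K_F_deriv (r : ℕ) (hr : 2 ≤ r) :
    HasDerivAt (K_F r) (1 - ((r : ℝ) - 1) * aa r) 1 := by
  have h1 := (hasDerivAt_pow (r - 1) (1 : ℝ)).mul (K_gg_deriv r hr)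
  have h3 : ((r - 1 : ℕ) : ℝ) * 1 ^ (r - 1 - 1) * gg r 1 +
      1 ^ (r - 1) * (1 - 2 * ((r : ℝ) - 1) * aa r) = 1 - ((r : ℝ) - 1) * aa r := by
    rw [one_pow, one_pow, Nat.cast_sub (by omega)]
    unfold aa
    push_cast
    ring
  rw [← h3]
  exact h1

theorem K_Psi_deriv (r : ℕ) (hr : 2 ≤ r) : HasDerivAt (K_Psi r) 0 1 := by
  have h1 : HasDerivAt (fun x => Real.exp (2 * hh r x - 2 * hh r 1))
      (Real.exp (2 * hh r 1 - 2 * hh r 1) * (2 * ((r : ℝ) - 1))) 1 :=
    (((K_hh_deriv r hr).const_mul 2).sub_const _).exp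
  have h2 : HasDerivAt (fun x => (1 - x) + K_F r x) ((0 - 1) + (1 - ((r : ℝ) - 1) * aa r)) 1 :=
    (((hasDerivAt_const (1 : ℝ) (1 : ℝ)).sub (hasDerivAt_id (1 : ℝ)))).add (K_F_deriv r hr)
  have h4 := (h1.mul (h2.pow 2)).sub_const ((aa r) ^ 2)
  have hF1 : K_F r 1 = aa r := by
    unfold K_F aa
    rw [one_pow, one_mul]
  have h5 : (Real.exp (2 * hh r 1 - 2 * hh r 1) * (2 * ((r : ℝ) - 1))) * ((1 - 1) + K_F r 1) ^ 2 +
      Real.exp (2 * hh r 1 - 2 * hh r 1) * (((2 : ℕ) : ℝ) * ((1 - 1) + K_F r 1) ^ (2 - 1) *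
        ((0 - 1) + (1 - ((r : ℝ) - 1) * aa r))) = 0 := by
    rw [hF1, sub_self, Real.exp_zero]
    push_cast
    ring
  rw [← h5]
  exact h4

theorem K_Psi_one (r : ℕ) : K_Psi r 1 = 0 := by
  unfold K_Psi K_F aa
  rw [sub_self, Real.exp_zero]
  simp

theorem K_bound (r : ℕ) (hr : 2 ≤ r) : ∃ C : ℝ, ∀ t ∈ Set.Icc (0 : ℝ) 1,
    |K_Psi r t| ≤ C * (1 - t) ^ 2 := by
  have hcd : ContDiff ℝ 2 (fun u => K_Psi r (1 - u)) :=
    (K_Psi_contDiff r).comp (contDiff_const.sub contDiff_id)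
  have hcd2 : ContDiffOn ℝ ((1 : ℕ) + 1) (fun u => K_Psi r (1 - u)) (Set.Icc 0 1) := by
    have h2 : (((1 : ℕ) : WithTop ℕ∞) + 1) = 2 := by norm_num
    rw [h2]
    exact hcd.contDiffOn
  obtain ⟨C, hC⟩ := exists_taylor_mean_remainder_bound (zero_le_one) hcd2
  refine ⟨C, fun t ht => ?_⟩
  have h1 := hC (1 - t) ⟨by linarith [ht.2], by linarith [ht.1]⟩
  have hder : HasDerivAt (fun u => K_Psi r (1 - u)) 0 0 := by
    have h3 : HasDerivAt (fun u : ℝ => 1 - u) (-1) 0 := by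
      simpa using (hasDerivAt_id (0 : ℝ)).const_sub 1
    have h4 : HasDerivAt (K_Psi r) 0 (1 - 0) := by
      rw [sub_zero]
      exact K_Psi_deriv r hr
    have h5 := h4.comp (0 : ℝ) h3
    rw [zero_mul] at h5
    exact h5
  have hdw : iteratedDerivWithin 1 (fun u => K_Psi r (1 - u)) (Set.Icc 0 1) 0 = 0 := by
    rw [iteratedDerivWithin_one]
    exact hder.hasDerivWithinAt.derivWithin ((uniqueDiffOn_Icc zero_lt_one) 0 ⟨le_rfl, zero_le_one⟩)
  rw [taylorWithinEval_succ, taylor_within_zero_eval, hdw] at h1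
  simp only [smul_zero, add_zero, sub_zero, sub_sub_cancel, K_Psi_one] at h1
  simpa using h1

theorem K_eq (r : ℕ) (t : ℝ) (ht : t ≠ 1) : integrand r t = K_Psi r t / (1 - t) ^ 2 := by
  have h : (1 - t) ≠ 0 := sub_ne_zero.2 (Ne.symm ht)
  unfold integrand K_Psi K_F
  field_simp

theorem K_meas (r : ℕ) : Measurable (integrand r) := by
  have h1 : Continuous (hh r) := K_hh_cont r
  have h2 : Continuous (gg r) := (K_gg_contDiff r).continuous
  unfold integrand
  refine Measurable.sub (Measurable.mul ?_ ?_) ?_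
  · exact (Real.continuous_exp.comp ((continuous_const.mul h1).sub continuous_const)).measurable
  · refine Measurable.pow_const (measurable_const.add ?_) 2
    exact (((continuous_id.pow _).mul h2).measurable).div (measurable_const.sub measurable_id)
  · exact measurable_const.div ((measurable_const.sub measurable_id).pow_const 2)

/-! END -/

/-- TARGET -/
theorem integrand_integrable (r : ℕ) (hr : 2 ≤ r) :
    IntervalIntegrable (integrand r) volume 0 1 := by
  obtain ⟨C, hC⟩ := K_bound r hr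
  rw [intervalIntegrable_iff_integrableOn_Ioc_of_le zero_le_one]
  refine Measure.integrableOn_of_bounded (M := max C |integrand r 1|) (by simp)
    (K_meas r).aestronglyMeasurable ?_
  rw [ae_restrict_iff' measurableSet_Ioc]
  refine Filter.Eventually.of_forall fun t ht => ?_
  by_cases h1 : t = 1
  · rw [h1]
    exact le_max_right _ _
  · rw [K_eq r t h1, norm_div, Real.norm_eq_abs, norm_pow]
    have hpos : 0 < 1 - t := by
      have := lt_of_le_of_ne ht.2 h1
      linarith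
    rw [Real.norm_eq_abs, abs_of_pos hpos, div_le_iff₀ (by positivity)]
    refine (hC t ⟨ht.1.le, ht.2⟩).trans ?_
    exact mul_le_mul_of_nonneg_right (le_max_left _ _) (by positivity)

end Pool.Agent.Helper791.RSA
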