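import Pool.Agent.Helper791_RSA.Defs
import Pool.Agent.Helper791_RSA.K

set_option autoImplicit false

namespace Pool.Agent.Helper791.RSA

open Filter Topology MeasureTheory ProbabilityTheory



theorem L_cont_hh (r : ℕ) : Continuous (hh r) := by
  unfold hh
  fun_prop

theorem L_deriv_hh (r : ℕ) (hr : 2 ≤ r) : HasDerivAt (hh r) ((r : ℝ) - 1) 1 := by
  have h1 : HasDerivAt (fun x : ℝ => ∑ k ∈ Finset.Ico 1 r, x ^ k / (k : ℝ))
      (∑ k ∈ Finset.Ico 1 r, ((k : ℝ) * (1 : ℝ) ^ (k - 1)) / (k : ℝ)) 1 :=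
    HasDerivAt.fun_sum fun k _ => (hasDerivAt_pow k 1).div_const (k : ℝ)
  have h2 : ∑ k ∈ Finset.Ico 1 r, ((k : ℝ) * (1 : ℝ) ^ (k - 1)) / (k : ℝ) = (r : ℝ) - 1 := by
    have h3 : ∀ k ∈ Finset.Ico 1 r, ((k : ℝ) * (1 : ℝ) ^ (k - 1)) / (k : ℝ) = 1 := by
      intro k hk
      have : (k : ℝ) ≠ 0 := by
        have := (Finset.mem_Ico.1 hk).1
        positivity
      rw [one_pow, mul_one, div_self this]
    rw [Finset.sum_congr rfl h3, Finset.sum_const, Nat.card_Ico, nsmul_eq_mul, mul_one,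
      Nat.cast_sub (by omega), Nat.cast_one]
  rw [h2] at h1
  exact h1

theorem L_cont_phi (r : ℕ) : Continuous (phi r) := by
  unfold phi
  refine intervalIntegral.continuous_primitive (fun a b => ?_) 0
  have := L_cont_hh r
  exact (Continuous.intervalIntegrable (by fun_prop) a b)

theorem L_cont_gg (r : ℕ) : Continuous (gg r) := by
  have h1 := L_cont_hh r
  have h2 := L_cont_phi r
  unfold gg
  fun_prop

theorem L_psi (r : ℕ) (hr : 2 ≤ r) : Tendsto (fun z : ℝ =>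
    (2 * Real.exp (2 * hh r 1 - 2 * hh r z) - (1 + z)) / (1 - z)) (𝓝[<] 1)
    (𝓝 (4 * (r : ℝ) - 3)) := by
  have h1 : HasDerivAt (fun z : ℝ => 2 * Real.exp (2 * hh r 1 - 2 * hh r z) - (1 + z))
      (-(4 * (r : ℝ) - 3)) 1 := by
    have h2 := (((L_deriv_hh r hr).const_mul 2).const_sub (2 * hh r 1)).exp.const_mul 2
    have h3 := h2.sub ((hasDerivAt_id (1 : ℝ)).const_add 1)
    refine h3.congr_deriv ?_
    rw [sub_self, Real.exp_zero]
    ring
  have h4 := h1.tendsto_slope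
  have h5 : Tendsto (fun z : ℝ => -slope (fun z : ℝ =>
      2 * Real.exp (2 * hh r 1 - 2 * hh r z) - (1 + z)) 1 z) (𝓝[<] 1)
      (𝓝 (-(-(4 * (r : ℝ) - 3)))) :=
    (h4.mono_left (nhdsWithin_mono _ fun x hx => ne_of_lt hx)).neg
  rw [neg_neg] at h5
  refine h5.congr fun z => ?_
  rw [slope_def_field]
  have e : 2 * Real.exp (2 * hh r 1 - 2 * hh r 1) - (1 + 1) = 0 := by
    rw [sub_self, Real.exp_zero]; norm_num
  rw [e, sub_zero, ← neg_sub (1 : ℝ) z, div_neg, neg_neg]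

theorem L_int (z : ℝ) (hz0 : 0 < z) (hz1 : z < 1) :
    IntervalIntegrable (fun t : ℝ => 1 / (1 - t) ^ 2) volume 0 z ∧
    ∫ t in (0 : ℝ)..z, 1 / (1 - t) ^ 2 = z / (1 - z) := by
  have hne : ∀ t ∈ Set.uIcc (0 : ℝ) z, 1 - t ≠ 0 := by
    intro t ht
    rw [Set.uIcc_of_le hz0.le] at ht
    have h2 := ht.2
    have h3 : (0 : ℝ) < 1 - t := by linarith
    exact h3.ne'
  have hcont : ContinuousOn (fun t : ℝ => 1 / (1 - t) ^ 2) (Set.uIcc 0 z) := by
    refine ContinuousOn.div continuousOn_const (by fun_prop) fun t ht => ?_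
    exact pow_ne_zero 2 (hne t ht)
  refine ⟨hcont.intervalIntegrable, ?_⟩
  have h1 : ∀ t ∈ Set.uIcc (0 : ℝ) z, HasDerivAt (fun t : ℝ => (1 - t)⁻¹) (1 / (1 - t) ^ 2) t := by
    intro t ht
    have h2 := ((hasDerivAt_id t).const_sub 1).inv (hne t ht)
    refine h2.congr_deriv ?_
    simp
  rw [intervalIntegral.integral_eq_sub_of_hasDerivAt h1 hcont.intervalIntegrable]
  have : 1 - z ≠ 0 := by linarith
  field_simp
  ring

/-! END -/

/-- TARGET -/
theorem limit_formula (r : ℕ) (hr : 2 ≤ r) :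
    Tendsto (fun z : ℝ => Real.exp (-2 * hh r z) *
        (∫ t in (0 : ℝ)..z, Real.exp (2 * hh r t) * (2 * (1 + t ^ (r - 1) * gg r t / (1 - t)) ^ 2 - 1)) -
        (aa r) ^ 2 * z * (1 + z) / (1 - z) - 2 * aa r * ((2 * r - 1) * aa r - 1) * z -
        ((2 * r - 1) * aa r - 1) ^ 2 * (1 - z)) (𝓝[<] 1) (𝓝 (vv r)) := by
  obtain ⟨I, hI⟩ : ∃ I : ℝ → ℝ, I = fun z => ∫ t in (0 : ℝ)..z, integrand r t := ⟨_, rfl⟩
  have hint := integrand_integrable r hr
  have h1 : Tendsto I (𝓝[<] 1) (𝓝 (I 1)) := by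
    have h2 : ContinuousOn I (Set.uIcc 0 1) := by
      rw [hI]
      exact intervalIntegral.continuousOn_primitive_interval' hint Set.left_mem_uIcc
    have h3 : ContinuousWithinAt I (Set.uIcc 0 1) 1 := h2 1 Set.right_mem_uIcc
    refine h3.tendsto.mono_left (nhdsWithin_le_of_mem ?_)
    rw [Set.uIcc_of_le zero_le_one]
    exact Filter.mem_of_superset (Ioo_mem_nhdsLT zero_lt_one) Set.Ioo_subset_Icc_self
  have hc1 := L_cont_hh r
  have hc2 := L_cont_gg r
  have h2 : Tendsto (fun z : ℝ => Real.exp (2 * hh r 1 - 2 * hh r z)) (𝓝[<] 1) (𝓝 1) := by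
    have : Continuous fun z : ℝ => Real.exp (2 * hh r 1 - 2 * hh r z) := by fun_prop
    have h3 := this.tendsto 1
    rw [sub_self, Real.exp_zero] at h3
    exact h3.mono_left nhdsWithin_le_nhds
  have h3 : Tendsto (gg r) (𝓝[<] 1) (𝓝 (aa r)) := by
    have := (hc2.tendsto 1).mono_left (nhdsWithin_le_nhds (s := Set.Iio (1 : ℝ)))
    exact this
  have h4 : Tendsto (fun z : ℝ => z) (𝓝[<] (1 : ℝ)) (𝓝 1) :=
    tendsto_id.mono_left nhdsWithin_le_nhds
  have h5 := L_psi r hr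
  obtain ⟨a, ha⟩ : ∃ a : ℝ, a = aa r := ⟨_, rfl⟩
  have key : Tendsto (fun z : ℝ => 2 * Real.exp (2 * hh r 1 - 2 * hh r z) * I z +
      a ^ 2 * z * ((2 * Real.exp (2 * hh r 1 - 2 * hh r z) - (1 + z)) / (1 - z)) - gg r z -
      2 * a * ((2 * r - 1) * a - 1) * z - ((2 * r - 1) * a - 1) ^ 2 * (1 - z)) (𝓝[<] 1)
      (𝓝 (2 * 1 * I 1 + a ^ 2 * 1 * (4 * (r : ℝ) - 3) - a -
      2 * a * ((2 * r - 1) * a - 1) * 1 - ((2 * r - 1) * a - 1) ^ 2 * (1 - 1))) := by
    have h3' := h3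
    rw [← ha] at h3'
    exact ((((((h2.const_mul 2).mul h1).add ((h4.const_mul (a ^ 2)).mul h5)).sub h3').sub
      (h4.const_mul _)).sub ((tendsto_const_nhds.sub h4).const_mul _))
  have hval : 2 * 1 * I 1 + a ^ 2 * 1 * (4 * (r : ℝ) - 3) - a -
      2 * a * ((2 * r - 1) * a - 1) * 1 - ((2 * r - 1) * a - 1) ^ 2 * (1 - 1) = vv r := by
    unfold vv
    rw [← ha, hI]
    ring
  rw [hval] at key
  refine key.congr' ?_
  filter_upwards [Ioo_mem_nhdsLT zero_lt_one] with z hz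
  obtain ⟨hz0, hz1⟩ := hz
  rw [← ha]
  obtain ⟨i1, i2⟩ := L_int z hz0 hz1
  have hintz : IntervalIntegrable (integrand r) volume 0 z := by
    refine hint.mono_set ?_
    rw [Set.uIcc_of_le hz0.le, Set.uIcc_of_le zero_le_one]
    exact Set.Icc_subset_Icc_right hz1.le
  have hexp : IntervalIntegrable (fun t : ℝ => Real.exp (2 * hh r t)) volume 0 z :=
    Continuous.intervalIntegrable (by fun_prop) 0 z
  have hfun : ∀ t : ℝ, Real.exp (2 * hh r t) * (2 * (1 + t ^ (r - 1) * gg r t / (1 - t)) ^ 2 - 1) =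
      2 * Real.exp (2 * hh r 1) * integrand r t +
        2 * a ^ 2 * Real.exp (2 * hh r 1) * (1 / (1 - t) ^ 2) - Real.exp (2 * hh r t) := by
    intro t
    unfold integrand
    rw [← ha]
    have e : Real.exp (2 * hh r t) = Real.exp (2 * hh r 1) * Real.exp (2 * hh r t - 2 * hh r 1) := by
      rw [← Real.exp_add]; congr 1; ring
    rw [e]
    ring
  have hI2 : (∫ t in (0 : ℝ)..z, Real.exp (2 * hh r t) *
      (2 * (1 + t ^ (r - 1) * gg r t / (1 - t)) ^ 2 - 1)) =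
      2 * Real.exp (2 * hh r 1) * I z + 2 * a ^ 2 * Real.exp (2 * hh r 1) * (z / (1 - z)) -
        phi r z := by
    simp_rw [hfun]
    rw [intervalIntegral.integral_sub ((hintz.const_mul _).add (i1.const_mul _)) hexp,
      intervalIntegral.integral_add (hintz.const_mul _) (i1.const_mul _),
      intervalIntegral.integral_const_mul, intervalIntegral.integral_const_mul, i2, hI]
    rfl
  rw [hI2]
  have e1 : Real.exp (2 * hh r 1 - 2 * hh r z) = Real.exp (-2 * hh r z) * Real.exp (2 * hh r 1) := by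
    rw [← Real.exp_add]; congr 1; ring
  have e2 : gg r z = Real.exp (-2 * hh r z) * phi r z := rfl
  rw [e1, e2]
  have hz' : 1 - z ≠ 0 := by linarith
  field_simp
  ring

end Pool.Agent.Helper791.RSA

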