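import Pool.Agent.Helper791_RSA.Defs

set_option autoImplicit false

namespace Pool.Agent.Helper791.RSA

open Filter Topology MeasureTheory ProbabilityTheory



theorem M_geo (q : ℝ) (h0 : 0 ≤ q) (h1 : q < 1) : ∃ K : ℝ, 0 ≤ K ∧ ∀ n : ℕ, ((n : ℝ) + 1) * q ^ n ≤ K := by
  have ht : Tendsto (fun n : ℕ => (n : ℝ) * q ^ n + q ^ n) atTop (𝓝 (0 + 0)) :=
    (tendsto_self_mul_const_pow_of_lt_one h0 h1).add (tendsto_pow_atTop_nhds_zero_of_lt_one h0 h1)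
  obtain ⟨K, hK⟩ := ht.bddAbove_range
  have h : ∀ n : ℕ, ((n : ℝ) + 1) * q ^ n ≤ K := by
    intro n
    have := hK ⟨n, rfl⟩
    simp only at this
    linarith
  refine ⟨K, ?_, h⟩
  have := h 0
  simp at this
  linarith

/-! END -/

/-- TARGET -/
theorem w_rec (r : ℕ) (a : ℝ) (m s : ℕ → ℝ)
    (hm : ∀ n : ℕ, ((n : ℝ) + 1) * m (n + r) = ((n : ℝ) + 1) + 2 * ∑ j ∈ Finset.range (n + 1), m j)
    (hs : ∀ n : ℕ, ((n : ℝ) + 1) * s (n + r) = ((n : ℝ) + 1) + 4 * ∑ j ∈ Finset.range (n + 1), m j +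
      2 * ∑ j ∈ Finset.range (n + 1), m j * m (n - j) + 2 * ∑ j ∈ Finset.range (n + 1), s j)
    (w d : ℕ → ℝ) (hd : ∀ n : ℕ, d n = m n - (((n : ℝ) + r) * a - 1))
    (hw : ∀ n : ℕ, w n = s n - 2 * (((n : ℝ) + r) * a - 1) * m n + (((n : ℝ) + r) * a - 1) ^ 2) (n : ℕ) :
    ((n : ℝ) + 1) * w (n + r) = 2 * ∑ j ∈ Finset.range (n + 1), w j +
      2 * ∑ j ∈ Finset.range (n + 1), d j * d (n - j) := by
  have hrefl : ∀ f : ℕ → ℝ, ∑ j ∈ Finset.range (n + 1), f (n - j) = ∑ j ∈ Finset.range (n + 1), f j := by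
    intro f
    have := Finset.sum_range_reflect f (n + 1)
    simpa using this
  set L : ℝ := (((n + r : ℕ) : ℝ) + r) * a - 1 with hL
  have hterm : ∀ j ∈ Finset.range (n + 1),
      1 + 2 * m j + 2 * m (n - j) + 2 * (m j * m (n - j)) + s j + s (n - j) -
        2 * L * (1 + m j + m (n - j)) + L ^ 2 = w j + w (n - j) + 2 * (d j * d (n - j)) := by
    intro j hj
    have hj' : j ≤ n := Nat.lt_succ_iff.mp (Finset.mem_range.mp hj)
    rw [hw, hw, hd, hd, Nat.cast_sub hj', hL]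
    push_cast
    ring
  have hsum := Finset.sum_congr rfl hterm
  simp only [Finset.sum_add_distrib, Finset.sum_sub_distrib, ← Finset.mul_sum, Finset.sum_const,
    Finset.card_range, nsmul_eq_mul, hrefl] at hsum
  have e1 : ((n : ℝ) + 1) * w (n + r) =
      ((n : ℝ) + 1) * s (n + r) - 2 * L * (((n : ℝ) + 1) * m (n + r)) + ((n : ℝ) + 1) * L ^ 2 := by
    rw [hw, hL]; ring
  rw [e1, hs, hm]
  push_cast at hsum
  linarith [hsum]

/-- TARGET -/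
theorem conv_bound (d : ℕ → ℝ) (C ρ : ℝ) (hρ0 : 0 < ρ) (hρ1 : ρ < 1) (hd : ∀ n : ℕ, |d n| ≤ C * ρ ^ n) :
    ∃ K σ : ℝ, ρ ≤ σ ∧ σ < 1 ∧ ∀ n : ℕ, |2 * ∑ j ∈ Finset.range (n + 1), d j * d (n - j)| ≤ K * σ ^ n := by
  have hC : 0 ≤ C := by
    have := hd 0
    simp at this
    exact (abs_nonneg _).trans this
  have hσ0 : 0 < (1 + ρ) / 2 := by linarith
  have hq0 : 0 ≤ ρ / ((1 + ρ) / 2) := by positivity
  have hq1 : ρ / ((1 + ρ) / 2) < 1 := by rw [div_lt_one hσ0]; linarith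
  obtain ⟨K, hK0, hK⟩ := M_geo _ hq0 hq1
  refine ⟨2 * C ^ 2 * K, (1 + ρ) / 2, by linarith, by linarith, fun n => ?_⟩
  have h1 : |∑ j ∈ Finset.range (n + 1), d j * d (n - j)| ≤ ((n : ℝ) + 1) * (C ^ 2 * ρ ^ n) := by
    calc |∑ j ∈ Finset.range (n + 1), d j * d (n - j)| ≤ ∑ j ∈ Finset.range (n + 1), |d j * d (n - j)| :=
          Finset.abs_sum_le_sum_abs _ _
      _ ≤ ∑ j ∈ Finset.range (n + 1), C ^ 2 * ρ ^ n := by
          refine Finset.sum_le_sum fun j hj => ?_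
          have hj' : j ≤ n := Nat.lt_succ_iff.mp (Finset.mem_range.mp hj)
          rw [abs_mul]
          calc |d j| * |d (n - j)| ≤ (C * ρ ^ j) * (C * ρ ^ (n - j)) :=
                mul_le_mul (hd j) (hd (n - j)) (abs_nonneg _) (by positivity)
            _ = C ^ 2 * (ρ ^ j * ρ ^ (n - j)) := by ring
            _ = C ^ 2 * ρ ^ n := by rw [← pow_add, Nat.add_sub_cancel' hj']
      _ = ((n : ℝ) + 1) * (C ^ 2 * ρ ^ n) := by
          rw [Finset.sum_const, Finset.card_range, nsmul_eq_mul]; push_cast; ring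
  have h2 : ((n : ℝ) + 1) * ρ ^ n ≤ K * ((1 + ρ) / 2) ^ n := by
    have := hK n
    rw [div_pow, ← mul_div_assoc, div_le_iff₀ (by positivity)] at this
    exact this
  rw [abs_mul, abs_of_pos (by norm_num : (0 : ℝ) < 2)]
  calc 2 * |∑ j ∈ Finset.range (n + 1), d j * d (n - j)| ≤ 2 * (((n : ℝ) + 1) * (C ^ 2 * ρ ^ n)) := by linarith
    _ = 2 * C ^ 2 * (((n : ℝ) + 1) * ρ ^ n) := by ring
    _ ≤ 2 * C ^ 2 * (K * ((1 + ρ) / 2) ^ n) := mul_le_mul_of_nonneg_left h2 (by positivity)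
    _ = 2 * C ^ 2 * K * ((1 + ρ) / 2) ^ n := by ring

end Pool.Agent.Helper791.RSA

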