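import Pool.Agent.Helper791_RSA.Defs

set_option autoImplicit false

namespace Pool.Agent.Helper791.RSA

open Filter Topology MeasureTheory ProbabilityTheory



theorem N_pow_le (p n : ℕ) : ((n : ℝ) + 1) ^ p ≤ 2 ^ p * ((n : ℝ) ^ p + 1) := by
  rcases Nat.eq_zero_or_pos n with h | h
  · subst h
    have h1 : (1 : ℝ) ≤ 2 ^ p := one_le_pow₀ (by norm_num)
    have h2 : (0 : ℝ) ≤ ((0 : ℕ) : ℝ) ^ p := by positivity
    have h3 : (((0 : ℕ) : ℝ) + 1) ^ p = 1 := by simp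
    rw [h3]
    nlinarith
  · have hn : (1 : ℝ) ≤ n := by exact_mod_cast h
    have h1 : ((n : ℝ) + 1) ^ p ≤ (2 * (n : ℝ)) ^ p := pow_le_pow_left₀ (by positivity) (by linarith) p
    rw [mul_pow] at h1
    have h2 : (0 : ℝ) < 2 ^ p := by positivity
    nlinarith

theorem N_summable (m : ℕ → ℝ) (K : ℝ) (p : ℕ) (hmb : ∀ n : ℕ, |m n| ≤ K * ((n : ℝ) + 1) ^ p)
    (t : ℝ) (ht0 : 0 ≤ t) (ht1 : t < 1) : Summable (fun n : ℕ => ‖m n * t ^ n‖) := by
  have hK : 0 ≤ K := by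
    have h := hmb 0
    simp at h
    exact (abs_nonneg _).trans h
  have ht : ‖t‖ < 1 := by rw [Real.norm_eq_abs, abs_of_nonneg ht0]; exact ht1
  have h1 : Summable (fun n : ℕ => (n : ℝ) ^ p * t ^ n) := summable_pow_mul_geometric_of_norm_lt_one p ht
  have h2 : Summable (fun n : ℕ => t ^ n) := summable_geometric_of_lt_one ht0 ht1
  have h3 : Summable (fun n : ℕ => K * 2 ^ p * ((n : ℝ) ^ p * t ^ n + t ^ n)) := (h1.add h2).mul_left _
  refine Summable.of_nonneg_of_le (fun n => norm_nonneg _) (fun n => ?_) h3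
  have htn : 0 ≤ t ^ n := pow_nonneg ht0 n
  rw [norm_mul, Real.norm_eq_abs, Real.norm_eq_abs, abs_of_nonneg htn]
  calc |m n| * t ^ n ≤ (K * ((n : ℝ) + 1) ^ p) * t ^ n := mul_le_mul_of_nonneg_right (hmb n) htn
    _ ≤ (K * (2 ^ p * ((n : ℝ) ^ p + 1))) * t ^ n :=
        mul_le_mul_of_nonneg_right (mul_le_mul_of_nonneg_left (N_pow_le p n) hK) htn
    _ = K * 2 ^ p * ((n : ℝ) ^ p * t ^ n + t ^ n) := by ring

/-! END -/

/-- TARGET -/
theorem power_series (m : ℕ → ℝ) (K : ℝ) (p : ℕ) (hmb : ∀ n : ℕ, |m n| ≤ K * ((n : ℝ) + 1) ^ p)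
    (t : ℝ) (ht0 : 0 ≤ t) (ht1 : t < 1) :
    ∑' n : ℕ, (((n : ℝ) + 1) + 4 * ∑ j ∈ Finset.range (n + 1), m j +
      2 * ∑ j ∈ Finset.range (n + 1), m j * m (n - j)) * t ^ n =
      1 / (1 - t) ^ 2 + 4 * (∑' n : ℕ, m n * t ^ n) / (1 - t) + 2 * (∑' n : ℕ, m n * t ^ n) ^ 2 := by
  have hm := N_summable m K p hmb t ht0 ht1
  have hg : Summable (fun n : ℕ => ‖t ^ n‖) := by
    have h2 : Summable (fun n : ℕ => t ^ n) := summable_geometric_of_lt_one ht0 ht1
    exact h2.norm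
  have hgeo : ∑' n : ℕ, t ^ n = (1 - t)⁻¹ := tsum_geometric_of_lt_one ht0 ht1
  have hA := tsum_mul_tsum_eq_tsum_sum_range_of_summable_norm hg hg
  have hB := tsum_mul_tsum_eq_tsum_sum_range_of_summable_norm hm hg
  have hC := tsum_mul_tsum_eq_tsum_sum_range_of_summable_norm hm hm
  have sA := (summable_norm_sum_mul_range_of_summable_norm hg hg).of_norm
  have sB := (summable_norm_sum_mul_range_of_summable_norm hm hg).of_norm
  have sC := (summable_norm_sum_mul_range_of_summable_norm hm hm).of_norm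
  have key : ∀ n : ℕ, (((n : ℝ) + 1) + 4 * ∑ j ∈ Finset.range (n + 1), m j +
      2 * ∑ j ∈ Finset.range (n + 1), m j * m (n - j)) * t ^ n =
      (∑ k ∈ Finset.range (n + 1), t ^ k * t ^ (n - k)) +
      4 * (∑ k ∈ Finset.range (n + 1), (m k * t ^ k) * t ^ (n - k)) +
      2 * (∑ k ∈ Finset.range (n + 1), (m k * t ^ k) * (m (n - k) * t ^ (n - k))) := by
    intro n
    have e0 : ∀ k ∈ Finset.range (n + 1), t ^ k * t ^ (n - k) = t ^ n := by
      intro k hk
      rw [← pow_add]; congr 1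
      have := Finset.mem_range.1 hk; omega
    have e1 : (∑ k ∈ Finset.range (n + 1), t ^ k * t ^ (n - k)) = ((n : ℝ) + 1) * t ^ n := by
      rw [Finset.sum_congr rfl e0, Finset.sum_const, Finset.card_range, nsmul_eq_mul]
      push_cast; ring
    have e2 : (∑ k ∈ Finset.range (n + 1), (m k * t ^ k) * t ^ (n - k)) =
        (∑ j ∈ Finset.range (n + 1), m j) * t ^ n := by
      rw [Finset.sum_mul]
      refine Finset.sum_congr rfl (fun k hk => ?_)
      rw [mul_assoc, e0 k hk]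
    have e3 : (∑ k ∈ Finset.range (n + 1), (m k * t ^ k) * (m (n - k) * t ^ (n - k))) =
        (∑ j ∈ Finset.range (n + 1), m j * m (n - j)) * t ^ n := by
      rw [Finset.sum_mul]
      refine Finset.sum_congr rfl (fun k hk => ?_)
      rw [← e0 k hk]; ring
    rw [e1, e2, e3]; ring
  rw [tsum_congr key, (sA.add (sB.mul_left 4)).tsum_add (sC.mul_left 2), sA.tsum_add (sB.mul_left 4),
    tsum_mul_left, tsum_mul_left, ← hA, ← hB, ← hC, hgeo]
  have h1t : (1 : ℝ) - t ≠ 0 := by linarith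
  field_simp

end Pool.Agent.Helper791.RSA
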