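import Pool.Agent.Helper791_RSA.Defs
import Pool.Agent.Helper791_RSA.A
import Pool.Agent.Helper791_RSA.B
import Pool.Agent.Helper791_RSA.C
import Pool.Agent.Helper791_RSA.F
import Pool.Agent.Helper791_RSA.G
import Pool.Agent.Helper791_RSA.H
import Pool.Agent.Helper791_RSA.I
import Pool.Agent.Helper791_RSA.J
import Pool.Agent.Helper791_RSA.L
import Pool.Agent.Helper791_RSA.M
import Pool.Agent.Helper791_RSA.N

set_option autoImplicit false

namespace Pool.Agent.Helper791.RSA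

open Filter Topology MeasureTheory ProbabilityTheory

theorem asm_sum_succ (t : ℝ) (ht0 : 0 ≤ t) (ht1 : t < 1) :
    ∑' n : ℕ, ((n : ℝ) + 1) * t ^ n = 1 / (1 - t) ^ 2 := by
  have h := tsum_choose_mul_geometric_of_norm_lt_one 1 (r := t) (by rw [Real.norm_eq_abs, abs_of_nonneg ht0]; exact ht1)
  simp only [Nat.choose_one_right] at h
  rw [← h]
  apply tsum_congr
  intro n
  push_cast
  ring

theorem asm_summable_pow (p : ℕ) (t : ℝ) (ht0 : 0 ≤ t) (ht1 : t < 1) :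
    Summable (fun n : ℕ => ((n : ℝ) + 1) ^ p * t ^ n) := by
  have h1 : Summable (fun n : ℕ => ((n : ℝ)) ^ p * t ^ n) :=
    summable_pow_mul_geometric_of_norm_lt_one p (by rw [Real.norm_eq_abs, abs_of_nonneg ht0]; exact ht1)
  rcases eq_or_lt_of_le ht0 with h | h
  · rw [← h]
    apply summable_of_ne_finset_zero (s := {0})
    intro b hb
    simp only [Finset.mem_singleton] at hb
    simp [hb]
  · have h2 := (summable_nat_add_iff 1).mpr h1
    have h3 := h2.mul_left (1 / t)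
    refine h3.congr ?_
    intro n
    push_cast
    field_simp
    ring

theorem asm_summable_of_bound (x : ℕ → ℝ) (K : ℝ) (p : ℕ) (hx : ∀ n : ℕ, |x n| ≤ K * ((n : ℝ) + 1) ^ p)
    (t : ℝ) (ht0 : 0 ≤ t) (ht1 : t < 1) : Summable (fun n : ℕ => x n * t ^ n) := by
  have h := (asm_summable_pow p t ht0 ht1).mul_left K
  refine Summable.of_norm_bounded h ?_
  intro n
  rw [Real.norm_eq_abs, abs_mul, abs_of_nonneg (pow_nonneg ht0 n), ← mul_assoc]
  exact mul_le_mul_of_nonneg_right (hx n) (pow_nonneg ht0 n)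

theorem asm_hh_cont (r : ℕ) : Continuous (hh r) := by
  unfold hh
  fun_prop

theorem asm_phi_cont (r : ℕ) : Continuous (phi r) := by
  unfold phi
  apply intervalIntegral.continuous_primitive
  intro a b
  apply Continuous.intervalIntegrable
  have := asm_hh_cont r
  fun_prop

theorem asm_gg_cont (r : ℕ) : Continuous (gg r) := by
  unfold gg
  have := asm_hh_cont r
  have := asm_phi_cont r
  fun_prop

theorem mean_asymp (r : ℕ) (hr : 2 ≤ r) (m : ℕ → ℝ) (h0 : ∀ n, n < r → m n = 0)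
    (hm : ∀ n : ℕ, ((n : ℝ) + 1) * m (n + r) = ((n : ℝ) + 1) + 2 * ∑ j ∈ Finset.range (n + 1), m j) :
    (∃ C ρ : ℝ, 0 < ρ ∧ ρ < 1 ∧ ∀ n : ℕ, |m n - (((n : ℝ) + r) * aa r - 1)| ≤ C * ρ ^ n) ∧
    ∀ t : ℝ, 0 ≤ t → t < 1 → ∑' n : ℕ, m n * t ^ n = t ^ (r - 1) * gg r t / (1 - t) ^ 2 := by
  have hx : ∀ n : ℕ, ((n : ℝ) + 1) * (fun k => m k + 1) (n + r) =
      2 * ∑ j ∈ Finset.range (n + 1), (fun k => m k + 1) j + (fun _ => (0 : ℝ)) n := by
    intro n
    simp only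
    rw [Finset.sum_add_distrib, mul_add, hm n]
    simp
    ring
  have he : ∀ n : ℕ, |(fun _ : ℕ => (0 : ℝ)) n| ≤ 0 * (1 / 2 : ℝ) ^ n := by
    intro n; simp
  obtain ⟨L, β, C, hL⟩ := decay r (by omega) (fun k => m k + 1) (fun _ => (0 : ℝ)) (1 / 2) 0 (by norm_num) (by norm_num) he hx
  have hβ := intercept r (by omega) (fun k => m k + 1) (fun _ => (0 : ℝ)) (1 / 2) 0 (by norm_num) (by norm_num) he hx L β C hL
  have hC : 0 ≤ C := by
    have := hL 0
    simp only [pow_zero, mul_one] at this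
    exact le_trans (abs_nonneg _) this
  have hm' : ∀ n : ℕ, |m n - (L * n + (r * L - 1))| ≤ C * (1 / 2 : ℝ) ^ n := by
    intro n
    have := hL n
    rw [hβ] at this
    have e : m n + 1 - (L * n + r * L) = m n - (L * n + (r * L - 1)) := by ring
    rwa [e] at this
  have hab := abel m L (r * L - 1) C (1 / 2) (by norm_num) (by norm_num) hm' (r - 1)
  -- bound
  have hK : ∀ n : ℕ, |m n| ≤ (|L| * (r + 1) + 1 + C) * ((n : ℝ) + 1) ^ 1 := by
    intro n
    have h1 := hm' n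
    have h2 : |m n| ≤ |m n - (L * n + (r * L - 1))| + |L * n + (r * L - 1)| := by
      have := abs_add_le (m n - (L * n + (r * L - 1))) (L * n + (r * L - 1))
      simpa using this
    have h3 : |L * n + (r * L - 1)| ≤ |L| * (n + r) + 1 := by
      have e : L * n + (r * L - 1) = L * (n + r) + (-1) := by ring
      rw [e]
      refine (abs_add_le _ _).trans ?_
      rw [abs_mul, abs_of_nonneg (by positivity : (0 : ℝ) ≤ (n : ℝ) + r)]
      simp
    have h4 : C * (1 / 2 : ℝ) ^ n ≤ C := by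
      have : (1 / 2 : ℝ) ^ n ≤ 1 := pow_le_one₀ (by norm_num) (by norm_num)
      nlinarith
    have hn : (0 : ℝ) ≤ n := Nat.cast_nonneg n
    have hr' : (0 : ℝ) ≤ r := Nat.cast_nonneg r
    have h5 : |L| * (n + r) ≤ |L| * (r + 1) * (n + 1) := by
      have : (n : ℝ) + r ≤ (r + 1) * (n + 1) := by nlinarith
      calc |L| * (n + r) ≤ |L| * ((r + 1) * (n + 1)) := mul_le_mul_of_nonneg_left this (abs_nonneg L)
        _ = _ := by ring
    have h6 : 1 + C ≤ (1 + C) * (n + 1) := by nlinarith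
    rw [pow_one]
    linarith
  have hek : ∀ n : ℕ, |(fun n : ℕ => (n : ℝ) + 1) n| ≤ (|L| * (r + 1) + 1 + C) * ((n : ℝ) + 1) ^ 1 := by
    intro n
    simp only
    rw [abs_of_nonneg (by positivity), pow_one]
    have hn : (0 : ℝ) ≤ n := Nat.cast_nonneg n
    have : 1 ≤ |L| * (r + 1) + 1 + C := by
      have : 0 ≤ |L| * ((r : ℝ) + 1) := by positivity
      linarith
    nlinarith
  have hm2 : ∀ n : ℕ, ((n : ℝ) + 1) * m (n + r) = 2 * ∑ j ∈ Finset.range (n + 1), m j +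
      (fun n : ℕ => (n : ℝ) + 1) n := by
    intro n
    rw [hm n]; ring
  have hG : ∀ z : ℝ, 0 ≤ z → z < 1 → (1 - z) ^ 2 * ∑' i : ℕ, m (i + (r - 1)) * z ^ i = gg r z := by
    intro z hz0 hz1
    have h := ode r hr m (fun n : ℕ => (n : ℝ) + 1) _ 1 hK hek h0 hm2 z hz0 hz1
    have h2 : ∫ t in (0 : ℝ)..z, (1 - t) ^ 2 * Real.exp (2 * hh r t) * ∑' n : ℕ, (fun n : ℕ => (n : ℝ) + 1) n * t ^ n
        = phi r z := by
      unfold phi
      apply intervalIntegral.integral_congr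
      intro t ht
      rw [Set.uIcc_of_le hz0] at ht
      have ht1 : t < 1 := lt_of_le_of_lt ht.2 hz1
      simp only
      rw [asm_sum_succ t ht.1 ht1]
      have : (1 - t) ≠ 0 := by linarith
      field_simp
    rw [h2] at h
    unfold gg
    rw [← h]
    have : Real.exp (-2 * hh r z) * Real.exp (2 * hh r z) = 1 := by
      rw [← Real.exp_add]; simp
    calc (1 - z) ^ 2 * ∑' i : ℕ, m (i + (r - 1)) * z ^ i
        = (Real.exp (-2 * hh r z) * Real.exp (2 * hh r z)) * ((1 - z) ^ 2 * ∑' i : ℕ, m (i + (r - 1)) * z ^ i) := by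
          rw [this, one_mul]
      _ = _ := by ring
  have hLa : L = aa r := by
    have h1 : Tendsto (fun z : ℝ => gg r z) (𝓝[<] 1) (𝓝 (aa r)) := by
      have := (asm_gg_cont r).tendsto 1
      exact this.mono_left nhdsWithin_le_nhds
    have h2 : Tendsto (fun z : ℝ => gg r z) (𝓝[<] 1) (𝓝 L) := by
      refine hab.congr' ?_
      have : Set.Ioo (0 : ℝ) 1 ∈ 𝓝[<] (1 : ℝ) := Ioo_mem_nhdsLT (by norm_num)
      filter_upwards [this] with z hz
      exact hG z hz.1.le hz.2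
    exact tendsto_nhds_unique h2 h1
  refine ⟨⟨C, 1 / 2, by norm_num, by norm_num, ?_⟩, ?_⟩
  · intro n
    have := hm' n
    rw [hLa] at this
    have e : m n - (aa r * n + (r * aa r - 1)) = m n - (((n : ℝ) + r) * aa r - 1) := by ring
    rwa [e] at this
  · intro t ht0 ht1
    have hs := asm_summable_of_bound m _ 1 hK t ht0 ht1
    have h1 := hs.sum_add_tsum_nat_add (r - 1)
    have h2 : ∑ i ∈ Finset.range (r - 1), m i * t ^ i = 0 := by
      apply Finset.sum_eq_zero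
      intro i hi
      rw [h0 i (by have := Finset.mem_range.mp hi; omega)]
      simp
    rw [h2, zero_add] at h1
    rw [← h1, ← hG t ht0 ht1]
    have hne : (1 - t) ^ 2 ≠ 0 := by
      have : 1 - t ≠ 0 := by linarith
      positivity
    rw [eq_div_iff hne]
    have h3 : ∑' i : ℕ, m (i + (r - 1)) * t ^ (i + (r - 1)) = t ^ (r - 1) * ∑' i : ℕ, m (i + (r - 1)) * t ^ i := by
      rw [← tsum_mul_left]
      apply tsum_congr
      intro i
      rw [pow_add]; ring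
    rw [h3]; ring

theorem asm_sum_sq (t : ℝ) (ht0 : 0 ≤ t) (ht1 : t < 1) :
    ∑' n : ℕ, (n : ℝ) ^ 2 * t ^ n = t * (1 + t) / (1 - t) ^ 3 := by
  have hn : ‖t‖ < 1 := by rw [Real.norm_eq_abs, abs_of_nonneg ht0]; exact ht1
  have h2 := tsum_choose_mul_geometric_of_norm_lt_one 2 hn
  have h1 := asm_sum_succ t ht0 ht1
  have h0 := tsum_geometric_of_norm_lt_one hn
  have s0 : Summable (fun n : ℕ => t ^ n) := summable_geometric_of_norm_lt_one hn
  have s1 : Summable (fun n : ℕ => ((n : ℝ) + 1) * t ^ n) := by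
    simpa using asm_summable_pow 1 t ht0 ht1
  have s2 : Summable (fun n : ℕ => (((n + 2).choose 2 : ℕ) : ℝ) * t ^ n) :=
    summable_choose_mul_geometric_of_norm_lt_one 2 hn
  have e : ∀ n : ℕ, (n : ℝ) ^ 2 * t ^ n =
      2 * ((((n + 2).choose 2 : ℕ) : ℝ) * t ^ n) - 3 * (((n : ℝ) + 1) * t ^ n) + t ^ n := by
    intro n
    have : (((n + 2).choose 2 : ℕ) : ℝ) = ((n : ℝ) + 2) * (n + 1) / 2 := by
      rw [Nat.cast_choose_two]
      push_cast
      ring
    rw [this]; ring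
  calc ∑' n : ℕ, (n : ℝ) ^ 2 * t ^ n
      = ∑' n : ℕ, (2 * ((((n + 2).choose 2 : ℕ) : ℝ) * t ^ n) - 3 * (((n : ℝ) + 1) * t ^ n) + t ^ n) :=
        tsum_congr e
    _ = 2 * (1 / (1 - t) ^ (2 + 1)) - 3 * (1 / (1 - t) ^ 2) + (1 - t)⁻¹ := by
        rw [((s2.mul_left 2).sub (s1.mul_left 3)).tsum_add s0, (s2.mul_left 2).tsum_sub (s1.mul_left 3),
          tsum_mul_left, tsum_mul_left, h2, h1, h0]
    _ = t * (1 + t) / (1 - t) ^ 3 := by
        have : 1 - t ≠ 0 := by linarith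
        field_simp
        ring

theorem asm_ell (a b t : ℝ) (ht0 : 0 ≤ t) (ht1 : t < 1) :
    Summable (fun i : ℕ => (a * i + b) ^ 2 * t ^ i) ∧
    (1 - t) ^ 2 * ∑' i : ℕ, (a * i + b) ^ 2 * t ^ i =
      a ^ 2 * t * (1 + t) / (1 - t) + 2 * a * b * t + b ^ 2 * (1 - t) := by
  have hn : ‖t‖ < 1 := by rw [Real.norm_eq_abs, abs_of_nonneg ht0]; exact ht1
  have s0 : Summable (fun n : ℕ => t ^ n) := summable_geometric_of_norm_lt_one hn
  have s1 : Summable (fun n : ℕ => (n : ℝ) * t ^ n) := by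
    simpa using summable_pow_mul_geometric_of_norm_lt_one 1 hn
  have s2 : Summable (fun n : ℕ => (n : ℝ) ^ 2 * t ^ n) :=
    summable_pow_mul_geometric_of_norm_lt_one 2 hn
  have h0 := tsum_geometric_of_norm_lt_one hn
  have h1 := tsum_coe_mul_geometric_of_norm_lt_one hn
  have h2 := asm_sum_sq t ht0 ht1
  have e : ∀ i : ℕ, (a * i + b) ^ 2 * t ^ i =
      a ^ 2 * ((i : ℝ) ^ 2 * t ^ i) + 2 * a * b * ((i : ℝ) * t ^ i) + b ^ 2 * t ^ i := by
    intro i; ring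
  have hS : Summable (fun i : ℕ => a ^ 2 * ((i : ℝ) ^ 2 * t ^ i) + 2 * a * b * ((i : ℝ) * t ^ i) + b ^ 2 * t ^ i) :=
    ((s2.mul_left _).add (s1.mul_left _)).add (s0.mul_left _)
  refine ⟨hS.congr (fun i => (e i).symm), ?_⟩
  rw [tsum_congr e, ((s2.mul_left _).add (s1.mul_left _)).tsum_add (s0.mul_left _),
    (s2.mul_left _).tsum_add (s1.mul_left _), tsum_mul_left, tsum_mul_left, tsum_mul_left, h0, h1, h2]
  have : 1 - t ≠ 0 := by linarith
  field_simp

theorem asm_lin (ρ τ : ℝ) (h0 : 0 < ρ) (h1 : ρ < τ) :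
    ∃ K : ℝ, 0 ≤ K ∧ ∀ n : ℕ, ((n : ℝ) + 1) * ρ ^ n ≤ K * τ ^ n := by
  have hτ : 0 < τ := h0.trans h1
  have hq0 : 0 ≤ ρ / τ := by positivity
  have hq1 : ρ / τ < 1 := (div_lt_one hτ).mpr h1
  have hs : Summable (fun n : ℕ => ((n : ℝ) + 1) * (ρ / τ) ^ n) := by
    simpa using asm_summable_pow 1 (ρ / τ) hq0 hq1
  refine ⟨∑' n : ℕ, ((n : ℝ) + 1) * (ρ / τ) ^ n, tsum_nonneg (fun n => by positivity), ?_⟩
  intro n
  have h := hs.le_tsum n (fun j _ => by positivity)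
  have h2 : ((n : ℝ) + 1) * ρ ^ n = (((n : ℝ) + 1) * (ρ / τ) ^ n) * τ ^ n := by
    rw [div_pow]
    field_simp
  rw [h2]
  exact mul_le_mul_of_nonneg_right h (by positivity)

theorem asm_lim_div (v : ℕ → ℝ) (L B : ℝ) (h : ∀ n : ℕ, |v n - L * n| ≤ B) :
    Tendsto (fun n : ℕ => v n / n) atTop (𝓝 L) := by
  rw [tendsto_iff_norm_sub_tendsto_zero]
  have hB : Tendsto (fun n : ℕ => B / (n : ℝ)) atTop (𝓝 0) := tendsto_const_div_atTop_nhds_zero_nat B
  refine squeeze_zero' (Eventually.of_forall (fun n => norm_nonneg _)) ?_ hB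
  filter_upwards [eventually_gt_atTop 0] with n hn
  have hn' : (0 : ℝ) < n := by exact_mod_cast hn
  rw [Real.norm_eq_abs]
  have e : v n / n - L = (v n - L * n) / n := by field_simp
  rw [e, abs_div, abs_of_pos hn']
  exact div_le_div_of_nonneg_right (h n) hn'.le

theorem asm_pow_le_one (σ : ℝ) (h0 : 0 < σ) (h1 : σ < 1) (n : ℕ) : σ ^ n ≤ 1 :=
  pow_le_one₀ h0.le h1.le

theorem var_asymp (r : ℕ) (hr : 2 ≤ r) (m s : ℕ → ℝ) (h0 : ∀ n, n < r → m n = 0 ∧ s n = 0)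
    (hm : ∀ n : ℕ, ((n : ℝ) + 1) * m (n + r) = ((n : ℝ) + 1) + 2 * ∑ j ∈ Finset.range (n + 1), m j)
    (hs : ∀ n : ℕ, ((n : ℝ) + 1) * s (n + r) = ((n : ℝ) + 1) + 4 * ∑ j ∈ Finset.range (n + 1), m j +
      2 * ∑ j ∈ Finset.range (n + 1), m j * m (n - j) + 2 * ∑ j ∈ Finset.range (n + 1), s j) :
    Tendsto (fun n : ℕ => (s n - (m n) ^ 2) / n) atTop (𝓝 (vv r)) := by
  obtain ⟨⟨C, ρ, hρ0, hρ1, hC⟩, hM⟩ := mean_asymp r hr m (fun n hn => (h0 n hn).1) hm
  generalize ha : aa r = a at hC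
  obtain ⟨d, hd⟩ : ∃ d : ℕ → ℝ, ∀ n : ℕ, d n = m n - (((n : ℝ) + r) * a - 1) := ⟨_, fun _ => rfl⟩
  obtain ⟨w, hw⟩ : ∃ w : ℕ → ℝ, ∀ n : ℕ, w n = s n - 2 * (((n : ℝ) + r) * a - 1) * m n +
    (((n : ℝ) + r) * a - 1) ^ 2 := ⟨_, fun _ => rfl⟩
  have hdC : ∀ n : ℕ, |d n| ≤ C * ρ ^ n := fun n => by rw [hd]; exact hC n
  have hC0 : 0 ≤ C := by
    have := hdC 0
    simp only [pow_zero, mul_one] at this
    exact le_trans (abs_nonneg _) this
  obtain ⟨K, σ, hρσ, hσ1, hK⟩ := conv_bound d C ρ hρ0 hρ1 hdC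
  have hσ0 : 0 < σ := lt_of_lt_of_le hρ0 hρσ
  have hwr := w_rec r a m s hm hs w d hd hw
  obtain ⟨L, β, C2, hL⟩ := decay r (by omega) w
    (fun n => 2 * ∑ j ∈ Finset.range (n + 1), d j * d (n - j)) σ K hσ0 hσ1 hK hwr
  have hC2 : 0 ≤ C2 := by
    have := hL 0
    simp only [pow_zero, mul_one] at this
    exact le_trans (abs_nonneg _) this
  have hr0 : (2 : ℝ) ≤ r := by exact_mod_cast hr
  -- bounds for ℓ, m, s
  have hell : ∀ n : ℕ, |((n : ℝ) + r) * a - 1| ≤ (|a| * r + 1) * ((n : ℝ) + 1) := by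
    intro n
    have hn : (0 : ℝ) ≤ n := Nat.cast_nonneg n
    have h1 : |((n : ℝ) + r) * a - 1| ≤ ((n : ℝ) + r) * |a| + 1 := by
      refine (abs_sub _ _).trans ?_
      rw [abs_mul, abs_of_nonneg (by positivity : (0 : ℝ) ≤ (n : ℝ) + r)]
      simp
    have h2 : ((n : ℝ) + r) ≤ r * ((n : ℝ) + 1) := by nlinarith
    have h3 : ((n : ℝ) + r) * |a| ≤ r * ((n : ℝ) + 1) * |a| :=
      mul_le_mul_of_nonneg_right h2 (abs_nonneg a)
    nlinarith
  have hmb : ∀ n : ℕ, |m n| ≤ (C + (|a| * r + 1)) * ((n : ℝ) + 1) ^ 1 := by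
    intro n
    have hn : (0 : ℝ) ≤ n := Nat.cast_nonneg n
    have h1 : m n = d n + (((n : ℝ) + r) * a - 1) := by rw [hd]; ring
    have h2 : |m n| ≤ |d n| + |((n : ℝ) + r) * a - 1| := by
      rw [h1]; exact abs_add_le _ _
    have h3 : |d n| ≤ C := by
      refine (hdC n).trans ?_
      have := asm_pow_le_one ρ hρ0 hρ1 n
      nlinarith
    have h4 := hell n
    rw [pow_one]
    nlinarith
  have hwb : ∀ n : ℕ, |w n| ≤ (|L| + |β| + C2) * ((n : ℝ) + 1) := by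
    intro n
    have hn : (0 : ℝ) ≤ n := Nat.cast_nonneg n
    have h1 : |w n| ≤ |w n - (L * n + β)| + |L * n + β| := by
      have := abs_add_le (w n - (L * n + β)) (L * n + β)
      simpa using this
    have h2 : |L * n + β| ≤ |L| * n + |β| := by
      refine (abs_add_le _ _).trans ?_
      rw [abs_mul, abs_of_nonneg hn]
    have h3 : C2 * σ ^ n ≤ C2 := by
      have := asm_pow_le_one σ hσ0 hσ1 n
      nlinarith
    have h4 := hL n
    have h5 : 0 ≤ |L| := abs_nonneg L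
    have h6 : 0 ≤ |β| := abs_nonneg β
    nlinarith
  obtain ⟨A, hA⟩ : ∃ A : ℝ, A = |a| * r + 1 := ⟨_, rfl⟩
  obtain ⟨Km, hKm⟩ : ∃ Km : ℝ, Km = C + (|a| * r + 1) := ⟨_, rfl⟩
  obtain ⟨Kw, hKw⟩ : ∃ Kw : ℝ, Kw = |L| + |β| + C2 := ⟨_, rfl⟩
  rw [← hKm] at hmb
  rw [← hKw] at hwb
  rw [← hA] at hell
  have hA0 : 0 ≤ A := by rw [hA]; positivity
  have hKm0 : 0 ≤ Km := by rw [hKm]; positivity
  have hKw0 : 0 ≤ Kw := by rw [hKw]; positivity
  have hsb : ∀ n : ℕ, |s n| ≤ (Kw + 2 * A * Km + A ^ 2) * ((n : ℝ) + 1) ^ 2 := by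
    intro n
    have hn : (0 : ℝ) ≤ n := Nat.cast_nonneg n
    have h1 : s n = w n + 2 * (((n : ℝ) + r) * a - 1) * m n - (((n : ℝ) + r) * a - 1) ^ 2 := by
      rw [hw]; ring
    have h2 : |s n| ≤ |w n| + 2 * |((n : ℝ) + r) * a - 1| * |m n| + |((n : ℝ) + r) * a - 1| ^ 2 := by
      rw [h1]
      refine (abs_sub _ _).trans ?_
      have h3 := abs_add_le (w n) (2 * (((n : ℝ) + r) * a - 1) * m n)
      rw [abs_mul, abs_mul, abs_two] at h3
      rw [abs_pow]
      linarith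
    have h3 := hell n
    have h4 := hmb n
    have h5 := hwb n
    rw [pow_one] at h4
    have h6 : |((n : ℝ) + r) * a - 1| * |m n| ≤ (A * ((n : ℝ) + 1)) * (Km * ((n : ℝ) + 1)) :=
      mul_le_mul h3 h4 (abs_nonneg _) (by positivity)
    have h7 : |((n : ℝ) + r) * a - 1| ^ 2 ≤ (A * ((n : ℝ) + 1)) ^ 2 :=
      pow_le_pow_left₀ (abs_nonneg _) h3 2
    have h8 : Kw * ((n : ℝ) + 1) ≤ Kw * ((n : ℝ) + 1) ^ 2 := by
      have : ((n : ℝ) + 1) ≤ ((n : ℝ) + 1) ^ 2 := by nlinarith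
      exact mul_le_mul_of_nonneg_left this hKw0
    nlinarith
  -- first limit
  have hlim1 : Tendsto (fun n : ℕ => (s n - (m n) ^ 2) / n) atTop (𝓝 L) := by
    apply asm_lim_div (fun n => s n - (m n) ^ 2) L (|β| + C2 + C ^ 2)
    intro n
    have h1 : s n - (m n) ^ 2 - L * n = (w n - (L * n + β)) + β - (d n) ^ 2 := by
      rw [hw, hd]; ring
    have h2 : |s n - (m n) ^ 2 - L * n| ≤ |w n - (L * n + β)| + |β| + |d n| ^ 2 := by
      rw [h1]
      refine (abs_sub _ _).trans ?_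
      have := abs_add_le (w n - (L * n + β)) β
      rw [abs_pow]
      linarith
    have h3 : |d n| ≤ C := by
      refine (hdC n).trans ?_
      have := asm_pow_le_one ρ hρ0 hρ1 n
      nlinarith
    have h4 : |w n - (L * n + β)| ≤ C2 := by
      refine (hL n).trans ?_
      have := asm_pow_le_one σ hσ0 hσ1 n
      nlinarith
    have h5 : |d n| ^ 2 ≤ C ^ 2 := pow_le_pow_left₀ (abs_nonneg _) h3 2
    linarith
  -- second limit
  obtain ⟨τ, hτ⟩ : ∃ τ : ℝ, τ = (σ + 1) / 2 := ⟨_, rfl⟩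
  have hτ1 : τ < 1 := by rw [hτ]; linarith
  have hστ : σ < τ := by rw [hτ]; linarith
  have hρτ : ρ < τ := lt_of_le_of_lt hρσ hστ
  have hτ0 : 0 < τ := hσ0.trans hστ
  obtain ⟨K5, hK50, hK5⟩ := asm_lin ρ τ hρ0 hρτ
  have hy : ∀ n : ℕ, |(fun n : ℕ => s n - (((n : ℝ) + r) * a - 1) ^ 2) n - (L * n + β)| ≤
      (C2 + 2 * A * C * K5) * τ ^ n := by
    intro n
    simp only
    have h1 : s n - (((n : ℝ) + r) * a - 1) ^ 2 - (L * n + β) =
        (w n - (L * n + β)) + 2 * (((n : ℝ) + r) * a - 1) * d n := by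
      rw [hw, hd]; ring
    have h2 : |s n - (((n : ℝ) + r) * a - 1) ^ 2 - (L * n + β)| ≤
        |w n - (L * n + β)| + 2 * |((n : ℝ) + r) * a - 1| * |d n| := by
      rw [h1]
      refine (abs_add_le _ _).trans ?_
      rw [abs_mul, abs_mul, abs_two]
    have h3 : |w n - (L * n + β)| ≤ C2 * τ ^ n := by
      refine (hL n).trans ?_
      exact mul_le_mul_of_nonneg_left (pow_le_pow_left₀ hσ0.le hστ.le n) hC2
    have h4 : |((n : ℝ) + r) * a - 1| * |d n| ≤ (A * ((n : ℝ) + 1)) * (C * ρ ^ n) :=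
      mul_le_mul (hell n) (hdC n) (abs_nonneg _) (by positivity)
    have h5 : (A * ((n : ℝ) + 1)) * (C * ρ ^ n) = A * C * (((n : ℝ) + 1) * ρ ^ n) := by ring
    have h6 : A * C * (((n : ℝ) + 1) * ρ ^ n) ≤ A * C * (K5 * τ ^ n) :=
      mul_le_mul_of_nonneg_left (hK5 n) (by positivity)
    nlinarith
  have hab := abel (fun n : ℕ => s n - (((n : ℝ) + r) * a - 1) ^ 2) L β (C2 + 2 * A * C * K5) τ hτ0 hτ1 hy (r - 1)
  -- the differential equation for s
  obtain ⟨e, he⟩ : ∃ e : ℕ → ℝ, ∀ n : ℕ, e n = ((n : ℝ) + 1) + 4 * ∑ j ∈ Finset.range (n + 1), m j +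
      2 * ∑ j ∈ Finset.range (n + 1), m j * m (n - j) := ⟨_, fun _ => rfl⟩
  have heb : ∀ n : ℕ, |e n| ≤ (1 + 4 * Km + 2 * Km ^ 2) * ((n : ℝ) + 1) ^ 3 := by
    intro n
    have hn : (0 : ℝ) ≤ n := Nat.cast_nonneg n
    have hmj : ∀ j ∈ Finset.range (n + 1), |m j| ≤ Km * ((n : ℝ) + 1) := by
      intro j hj
      have hj' : (j : ℝ) ≤ n := by
        have := Finset.mem_range.mp hj
        exact_mod_cast (by omega : j ≤ n)
      have := hmb j
      rw [pow_one] at this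
      refine this.trans ?_
      exact mul_le_mul_of_nonneg_left (by linarith) hKm0
    have h1 : |∑ j ∈ Finset.range (n + 1), m j| ≤ ((n : ℝ) + 1) * (Km * ((n : ℝ) + 1)) := by
      refine (Finset.abs_sum_le_sum_abs _ _).trans ?_
      refine (Finset.sum_le_sum hmj).trans ?_
      rw [Finset.sum_const, Finset.card_range, nsmul_eq_mul]
      push_cast
      exact le_rfl
    have h2 : |∑ j ∈ Finset.range (n + 1), m j * m (n - j)| ≤
        ((n : ℝ) + 1) * ((Km * ((n : ℝ) + 1)) * (Km * ((n : ℝ) + 1))) := by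
      refine (Finset.abs_sum_le_sum_abs _ _).trans ?_
      have : ∀ j ∈ Finset.range (n + 1), |m j * m (n - j)| ≤ (Km * ((n : ℝ) + 1)) * (Km * ((n : ℝ) + 1)) := by
        intro j hj
        rw [abs_mul]
        refine mul_le_mul (hmj j hj) (hmj (n - j) ?_) (abs_nonneg _) (by positivity)
        have := Finset.mem_range.mp hj
        exact Finset.mem_range.mpr (by omega)
      refine (Finset.sum_le_sum this).trans ?_
      rw [Finset.sum_const, Finset.card_range, nsmul_eq_mul]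
      push_cast
      exact le_rfl
    have h3 : |e n| ≤ ((n : ℝ) + 1) + 4 * |∑ j ∈ Finset.range (n + 1), m j| +
        2 * |∑ j ∈ Finset.range (n + 1), m j * m (n - j)| := by
      rw [he]
      refine (abs_add_le _ _).trans ?_
      have h4 := abs_add_le ((n : ℝ) + 1) (4 * ∑ j ∈ Finset.range (n + 1), m j)
      rw [abs_of_nonneg (by positivity : (0 : ℝ) ≤ (n : ℝ) + 1), abs_mul, abs_of_nonneg (by norm_num : (0 : ℝ) ≤ 4)] at h4
      rw [abs_mul, abs_two]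
      linarith
    have h5 : ((n : ℝ) + 1) ≤ ((n : ℝ) + 1) ^ 3 := by
      have h6 : (1 : ℝ) ≤ (n : ℝ) + 1 := by linarith
      calc ((n : ℝ) + 1) = ((n : ℝ) + 1) ^ 1 := (pow_one _).symm
        _ ≤ ((n : ℝ) + 1) ^ 3 := pow_le_pow_right₀ h6 (by norm_num)
    have h6 : ((n : ℝ) + 1) * (Km * ((n : ℝ) + 1)) ≤ Km * ((n : ℝ) + 1) ^ 3 := by
      have h7 : (1 : ℝ) ≤ (n : ℝ) + 1 := by linarith
      have h8 : ((n : ℝ) + 1) ^ 2 ≤ ((n : ℝ) + 1) ^ 3 := pow_le_pow_right₀ h7 (by norm_num)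
      nlinarith
    nlinarith
  have hser : ∀ z : ℝ, 0 ≤ z → z < 1 → (1 - z) ^ 2 * ∑' i : ℕ, s (i + (r - 1)) * z ^ i =
      Real.exp (-2 * hh r z) *
        ∫ t in (0 : ℝ)..z, Real.exp (2 * hh r t) * (2 * (1 + t ^ (r - 1) * gg r t / (1 - t)) ^ 2 - 1) := by
    intro z hz0 hz1
    have hKs0 : 0 ≤ Kw + 2 * A * Km + A ^ 2 := by positivity
    have hKe0 : 0 ≤ 1 + 4 * Km + 2 * Km ^ 2 := by positivity
    have b1 : ∀ n : ℕ, |s n| ≤ ((Kw + 2 * A * Km + A ^ 2) + (1 + 4 * Km + 2 * Km ^ 2)) * ((n : ℝ) + 1) ^ 3 := by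
      intro n
      have hn : (0 : ℝ) ≤ n := Nat.cast_nonneg n
      have h7 : (1 : ℝ) ≤ (n : ℝ) + 1 := by linarith
      have h8 : ((n : ℝ) + 1) ^ 2 ≤ ((n : ℝ) + 1) ^ 3 := pow_le_pow_right₀ h7 (by norm_num)
      refine (hsb n).trans ?_
      have h9 : (0 : ℝ) ≤ ((n : ℝ) + 1) ^ 3 := by positivity
      nlinarith [mul_le_mul_of_nonneg_left h8 hKs0, mul_nonneg hKe0 h9]
    have b2 : ∀ n : ℕ, |e n| ≤ ((Kw + 2 * A * Km + A ^ 2) + (1 + 4 * Km + 2 * Km ^ 2)) * ((n : ℝ) + 1) ^ 3 := by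
      intro n
      have hn : (0 : ℝ) ≤ n := Nat.cast_nonneg n
      refine (heb n).trans ?_
      have h9 : (0 : ℝ) ≤ ((n : ℝ) + 1) ^ 3 := by positivity
      nlinarith [mul_nonneg hKs0 h9]
    have hs' : ∀ n : ℕ, ((n : ℝ) + 1) * s (n + r) = 2 * ∑ j ∈ Finset.range (n + 1), s j + e n := by
      intro n
      rw [hs n, he n]; ring
    have h := ode r hr s e _ 3 b1 b2 (fun n hn => (h0 n hn).2) hs' z hz0 hz1
    have h2 : ∫ t in (0 : ℝ)..z, (1 - t) ^ 2 * Real.exp (2 * hh r t) * ∑' n : ℕ, e n * t ^ n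
        = ∫ t in (0 : ℝ)..z, Real.exp (2 * hh r t) * (2 * (1 + t ^ (r - 1) * gg r t / (1 - t)) ^ 2 - 1) := by
      apply intervalIntegral.integral_congr
      intro t ht
      rw [Set.uIcc_of_le hz0] at ht
      have ht1 : t < 1 := lt_of_le_of_lt ht.2 hz1
      simp only
      have h3 := power_series m Km 1 hmb t ht.1 ht1
      have h4 : ∑' n : ℕ, e n * t ^ n = ∑' n : ℕ, (((n : ℝ) + 1) + 4 * ∑ j ∈ Finset.range (n + 1), m j +
          2 * ∑ j ∈ Finset.range (n + 1), m j * m (n - j)) * t ^ n :=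
        tsum_congr (fun n => by rw [he n])
      rw [h4, h3, hM t ht.1 ht1]
      have : (1 - t) ≠ 0 := by linarith
      field_simp
      ring
    rw [h2] at h
    rw [← h]
    have h5 : Real.exp (-2 * hh r z) * Real.exp (2 * hh r z) = 1 := by
      rw [← Real.exp_add]; simp
    calc (1 - z) ^ 2 * ∑' i : ℕ, s (i + (r - 1)) * z ^ i
        = (Real.exp (-2 * hh r z) * Real.exp (2 * hh r z)) * ((1 - z) ^ 2 * ∑' i : ℕ, s (i + (r - 1)) * z ^ i) := by
          rw [h5, one_mul]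
      _ = _ := by ring
  have hfin : ∀ z : ℝ, 0 ≤ z → z < 1 → (1 - z) ^ 2 * ∑' i : ℕ,
      (fun n : ℕ => s n - (((n : ℝ) + r) * a - 1) ^ 2) (i + (r - 1)) * z ^ i =
      Real.exp (-2 * hh r z) *
        (∫ t in (0 : ℝ)..z, Real.exp (2 * hh r t) * (2 * (1 + t ^ (r - 1) * gg r t / (1 - t)) ^ 2 - 1)) -
        a ^ 2 * z * (1 + z) / (1 - z) - 2 * a * ((2 * r - 1) * a - 1) * z -
        ((2 * r - 1) * a - 1) ^ 2 * (1 - z) := by
    intro z hz0 hz1
    obtain ⟨hls, hle⟩ := asm_ell a ((2 * r - 1) * a - 1) z hz0 hz1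
    have hss0 := asm_summable_of_bound s _ 2 hsb z hz0 hz1
    have hss : Summable (fun i : ℕ => s (i + (r - 1)) * z ^ i) := by
      rcases eq_or_lt_of_le hz0 with h | h
      · rw [← h]
        apply summable_of_ne_finset_zero (s := {0})
        intro b hb
        simp only [Finset.mem_singleton] at hb
        simp [hb]
      · have h2 := (summable_nat_add_iff (r - 1)).mpr hss0
        have h3 := h2.mul_left (1 / z ^ (r - 1))
        refine h3.congr ?_
        intro i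
        rw [pow_add]
        field_simp
    have e1 : ∀ i : ℕ, (fun n : ℕ => s n - (((n : ℝ) + r) * a - 1) ^ 2) (i + (r - 1)) * z ^ i =
        s (i + (r - 1)) * z ^ i - (a * i + ((2 * r - 1) * a - 1)) ^ 2 * z ^ i := by
      intro i
      simp only
      have : ((i + (r - 1) : ℕ) : ℝ) = (i : ℝ) + (r - 1) := by
        rw [Nat.cast_add, Nat.cast_sub (by omega : 1 ≤ r)]
        simp
      rw [this]; ring
    rw [tsum_congr e1, hss.tsum_sub hls, mul_sub, hle, hser z hz0 hz1]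
    ring
  have hlim2 := limit_formula r hr
  rw [ha] at hlim2
  have hlim3 : Tendsto (fun z : ℝ => (1 - z) ^ 2 * ∑' i : ℕ,
      (fun n : ℕ => s n - (((n : ℝ) + r) * a - 1) ^ 2) (i + (r - 1)) * z ^ i) (𝓝[<] 1) (𝓝 (vv r)) := by
    refine hlim2.congr' ?_
    have : Set.Ioo (0 : ℝ) 1 ∈ 𝓝[<] (1 : ℝ) := Ioo_mem_nhdsLT (by norm_num)
    filter_upwards [this] with z hz
    exact (hfin z hz.1.le hz.2).symm
  have := tendsto_nhds_unique hab hlim3
  rw [← this]
  exact hlim1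

theorem final (r : ℕ) (hr : 2 ≤ r) :
    Tendsto (fun n : ℕ => Var[fun k : ℕ => (k : ℝ); (jamCount r n).toMeasure] / n) atTop (𝓝 (vv r)) := by
  obtain ⟨r0, r1, r2⟩ := recs r (by omega)
  obtain ⟨i0, i1, i2⟩ := interval r (by omega) (fun U => m1 r U.card U) (fun U => m2 r U.card U) r0 r1 r2
  simp only [Nat.card_Icc, Nat.add_sub_cancel] at i0 i1 i2
  have h := var_asymp r hr (fun n => m1 r n (Finset.Icc 1 n)) (fun n => m2 r n (Finset.Icc 1 n)) i0 i1 i2
  refine h.congr ?_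
  intro n
  rw [jamCount, var_finite (placements r n (Finset.Icc 1 n)) n (fun k hk => supp r n _ k hk),
    mean_eq, second_eq]

end Pool.Agent.Helper791.RSA
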