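import Mathlib

set_option autoImplicit false

namespace Pool.Agent.Helper791.RSA

open Filter Topology MeasureTheory ProbabilityTheory

/-- Starting sites `j` of the blocks `{j, ..., j + r - 1}` of `r` consecutive sites all of which belong to the
set `U` of uncovered sites. -/
def free (r : ℕ) (U : Finset ℕ) : Finset ℕ := U.filter (fun j => Finset.Ico j (j + r) ⊆ U)

/-- The law of the number of `r`-mers placed during `t` steps of the adsorption process started from the set `U`
of uncovered sites: as long as some block of `r` consecutive sites is entirely uncovered, one of these blocks is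
chosen uniformly at random and its `r` sites become covered; otherwise nothing happens any more. -/
noncomputable def placements (r : ℕ) : ℕ → Finset ℕ → PMF ℕ
  | 0, _ => PMF.pure 0
  | t + 1, U => if h : (free r U).Nonempty then
      (PMF.uniformOfFinset (free r U) h).bind
        (fun j => (placements r t (U \ Finset.Ico j (j + r))).map (· + 1))
    else PMF.pure 0

/-- The law of the jamming count `C_n`. -/
noncomputable def jamCount (r n : ℕ) : PMF ℕ := placements r n (Finset.Icc 1 n)

/-- First moment of `placements r t U`. -/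
noncomputable def m1 (r : ℕ) : ℕ → Finset ℕ → ℝ
  | 0, _ => 0
  | t + 1, U => if (free r U).Nonempty then
      (∑ j ∈ free r U, (1 + m1 r t (U \ Finset.Ico j (j + r)))) / ((free r U).card : ℝ)
    else 0

/-- Second moment of `placements r t U`. -/
noncomputable def m2 (r : ℕ) : ℕ → Finset ℕ → ℝ
  | 0, _ => 0
  | t + 1, U => if (free r U).Nonempty then
      (∑ j ∈ free r U, (1 + 2 * m1 r t (U \ Finset.Ico j (j + r)) + m2 r t (U \ Finset.Ico j (j + r))))
        / ((free r U).card : ℝ)
    else 0

/-- `h_r(x) = x + x²/2 + ... + x^(r-1)/(r-1)`. -/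
noncomputable def hh (r : ℕ) (x : ℝ) : ℝ := ∑ k ∈ Finset.Ico 1 r, x ^ k / (k : ℝ)

/-- `φ_r(x) = ∫_0^x exp(2 h_r(t)) dt`. -/
noncomputable def phi (r : ℕ) (x : ℝ) : ℝ := ∫ t in (0 : ℝ)..x, Real.exp (2 * hh r t)

/-- `g_r(x) = exp(-2 h_r(x)) φ_r(x)`. -/
noncomputable def gg (r : ℕ) (x : ℝ) : ℝ := Real.exp (-2 * hh r x) * phi r x

/-- `a_r = g_r(1)`, the limit of `E[C_n] / n`. -/
noncomputable def aa (r : ℕ) : ℝ := gg r 1

/-- The integrand of the variance formula. -/
noncomputable def integrand (r : ℕ) (x : ℝ) : ℝ :=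
  Real.exp (2 * hh r x - 2 * hh r 1) * (1 + x ^ (r - 1) * gg r x / (1 - x)) ^ 2 - (aa r) ^ 2 / (1 - x) ^ 2

/-- The variance constant. -/
noncomputable def vv (r : ℕ) : ℝ := aa r * (1 - aa r) + 2 * ∫ x in (0 : ℝ)..1, integrand r x

end Pool.Agent.Helper791.RSA
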